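import Pool.Agent.H.MP_e84969_co.A

set_option linter.unusedSectionVars false

namespace Pool.Agent.H.MP_c4b7b1_co
open Finset Real

def pm : ℕ → ℕ
  | 0 => 1
  | 1 => 0
  | k + 2 => (k + 1) * pm k

lemma pm_mul (m : ℕ) : pm (2 * m) * (2 ^ m * m.factorial) = (2 * m).factorial := by
  induction m with
  | zero => rfl
  | succ m ih =>
    rw [show 2 * (m + 1) = 2 * m + 2 by ring, pm, Nat.factorial_succ, Nat.factorial_succ,
      Nat.factorial_succ, ← ih]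
    ring

lemma pm_odd (m : ℕ) : pm (2 * m + 1) = 0 := by
  induction m with
  | zero => rfl
  | succ m ih => rw [show 2 * (m + 1) + 1 = 2 * m + 1 + 2 by ring, pm, ih, mul_zero]

lemma stir {n : ℕ} (hn : n ≠ 0) : ∃ s : ℝ, 1.7 ≤ s ∧ s ≤ 2 ∧
    (n.factorial : ℝ) = s * (√(2 * n) * (n / exp 1) ^ n) := by
  refine ⟨Stirling.stirlingSeq n, le_trans ?_ (Stirling.sqrt_pi_le_stirlingSeq hn), ?_, ?_⟩
  · exact Real.le_sqrt_of_sq_le (by linarith [Real.pi_gt_three])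
  · obtain ⟨k, rfl⟩ := Nat.exists_eq_succ_of_ne_zero hn
    refine (Stirling.stirlingSeq'_antitone (Nat.zero_le k)).trans ?_
    simp only [Function.comp, Nat.succ_eq_add_one, zero_add, Stirling.stirlingSeq_one]
    have : (1.4 : ℝ) ≤ √2 := Real.le_sqrt_of_sq_le (by norm_num)
    rw [div_le_iff₀ (by positivity)]
    linarith [Real.exp_one_lt_d9]
  · rw [Stirling.stirlingSeq, div_mul_cancel₀]
    positivity

lemma pm_bd (m : ℕ) : (2 * m / exp 1) ^ m ≤ (pm (2 * m) : ℝ) ∧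
    (pm (2 * m) : ℝ) ≤ 2 * (2 * m / exp 1) ^ m := by
  rcases Nat.eq_zero_or_pos m with rfl | hm
  · simp [pm]
  obtain ⟨s, s1, s2, e1⟩ := stir hm.ne'
  obtain ⟨t, t1, t2, e2⟩ := stir (n := 2 * m) (by omega)
  have h : (pm (2 * m) : ℝ) * (2 ^ m * m.factorial) = (2 * m).factorial := by
    exact_mod_cast pm_mul m
  have m0 : (0 : ℝ) < m := by exact_mod_cast hm
  have e3 : √(2 * ((2 * m : ℕ) : ℝ)) = √2 * √(2 * m) := by
    rw [← Real.sqrt_mul (by norm_num)]; push_cast; rfl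
  have e4 : (pm (2 * m) : ℝ) * s = t * √2 * (2 * m / exp 1) ^ m := by
    have p : (0 : ℝ) < √(2 * m) * (2 * m / exp 1) ^ m := by positivity
    refine mul_right_cancel₀ p.ne' ?_
    rw [e1, e2, e3, pow_mul'] at h
    push_cast at h
    rw [show (2 * m / exp 1 : ℝ) ^ m = 2 ^ m * (m / exp 1) ^ m by rw [← mul_pow, mul_div_assoc]]
      at h ⊢
    linear_combination h
  have q1 : (1.4 : ℝ) ≤ √2 := Real.le_sqrt_of_sq_le (by norm_num)
  have q2 : √2 ≤ (1.5 : ℝ) := Real.sqrt_le_iff.2 ⟨by norm_num, by norm_num⟩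
  have p1 : (0 : ℝ) ≤ pm (2 * m) := by positivity
  have p2 : (0 : ℝ) < (2 * m / exp 1) ^ m := by positivity
  have a1 : 2 ≤ t * √2 := by nlinarith
  have a2 : t * √2 ≤ 3 := by nlinarith
  constructor <;> nlinarith

noncomputable def gw (j : ℕ) : ℝ := exp (-(j : ℝ) ^ 2 / 2)

lemma pm_le (k N : ℕ) (h : k + 2 ≤ N) : (pm k : ℝ) ≤ 2 * exp 2 * ∑ j ∈ range N, (j : ℝ) ^ k * gw j := by
  have p : ∀ j ∈ range N, 0 ≤ (j : ℝ) ^ k * gw j := fun j _ => by unfold gw; positivity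
  obtain ⟨m, rfl | rfl⟩ := Nat.even_or_odd' k
  swap
  · rw [pm_odd, Nat.cast_zero]; exact mul_nonneg (by positivity) (sum_nonneg p)
  rcases Nat.eq_zero_or_pos m with rfl | hm
  · have := single_le_sum p (a := 0) (mem_range.2 (by omega))
    have h2 : 1 ≤ exp 2 := one_le_exp (by norm_num)
    simp only [gw, pm, mul_zero, pow_zero, Nat.cast_zero, one_mul, Nat.cast_one] at this ⊢
    norm_num at this
    nlinarith
  set r := √(2 * m : ℝ) with hr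
  have m1 : (1 : ℝ) ≤ m := by exact_mod_cast hm
  have r2 : r ^ 2 = 2 * m := Real.sq_sqrt (by positivity)
  have r1 : 1 ≤ r := Real.le_sqrt_of_sq_le (by linarith)
  have c1 := Nat.le_ceil r
  have c2 := Nat.ceil_lt_add_one (by positivity : 0 ≤ r)
  have c3 : ⌈r⌉₊ < N := by
    have : (⌈r⌉₊ : ℝ) < (2 * m + 2 : ℕ) := by push_cast; nlinarith
    have : ⌈r⌉₊ < 2 * m + 2 := by exact_mod_cast this
    omega
  refine (pm_bd m).2.trans ?_
  rw [mul_assoc]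
  refine mul_le_mul_of_nonneg_left (le_trans ?_ (mul_le_mul_of_nonneg_left
    (single_le_sum p (mem_range.2 c3)) (by positivity))) (by norm_num)
  rw [gw]
  generalize (⌈r⌉₊ : ℝ) = j at *
  have j0 : 0 < j := by linarith
  have l1 : 1 - r / j ≤ log (j / r) := by
    have := Real.one_sub_inv_le_log_of_pos (x := j / r) (by positivity)
    rwa [inv_div] at this
  have l2 : (j - r) * r - 1 ≤ r ^ 2 * (1 - r / j) := by
    have : r ^ 2 * (1 - r / j) = (j - r) * r - (j - r) ^ 2 * (r / j) := by field_simp; ring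
    have a : r / j ≤ 1 := (div_le_one j0).2 c1
    have b : (j - r) ^ 2 ≤ 1 := by nlinarith
    have c : 0 ≤ r / j := by positivity
    nlinarith
  rw [← exp_log (by positivity : 0 < j ^ (2 * m)), ← exp_add, ← exp_add,
    ← exp_log (by positivity : 0 < (2 * m / exp 1 : ℝ) ^ m), log_pow, log_pow,
    log_div (by positivity) (by positivity), log_exp, ← r2, log_pow]
  rw [log_div j0.ne' (by positivity)] at l1
  refine exp_le_exp.2 ?_
  push_cast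
  have l3 := mul_le_mul_of_nonneg_left l1 (sq_nonneg r)
  have l4 : (j - r) ^ 2 ≤ 1 := by nlinarith
  have l5 : (m : ℝ) = r ^ 2 / 2 := by linarith
  clear_value r
  rw [l5]
  nlinarith

lemma latt {c : ℝ} (hc : 0 < c) : ∃ C, ∀ (N : ℕ) (x : ℝ), 0 ≤ x →
    ∑ j ∈ range N, exp (-c * |j - x|) ≤ C := by
  have r1 : exp (-c) < 1 := exp_lt_one_iff.2 (by linarith)
  refine ⟨exp c * (2 * (1 - exp (-c))⁻¹), fun N x hx => ?_⟩
  set k := ⌊x⌋₊
  have h1 : ∀ j ∈ range N, exp (-c * |j - x|) ≤ exp c * exp (-c) ^ ((j : ℤ) - k).natAbs := by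
    intro j _
    rw [← exp_nat_mul, ← exp_add, Nat.cast_natAbs]
    push_cast
    have a1 := Nat.floor_le hx
    have a2 := Nat.lt_floor_add_one x
    have : |(j : ℝ) - k| ≤ |j - x| + 1 := by
      have := abs_sub_le (j : ℝ) x k
      have : |x - k| ≤ 1 := abs_le.2 ⟨by linarith, by linarith⟩
      linarith
    exact exp_le_exp.2 (by nlinarith)
  refine (sum_le_sum h1).trans ?_
  rw [← mul_sum, sum_comp (fun d => exp (-c) ^ d) (fun j : ℕ => ((j : ℤ) - k).natAbs)]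
  refine mul_le_mul_of_nonneg_left ((sum_le_sum (g := fun d => 2 * exp (-c) ^ d)
    (fun d _ => ?_)).trans ?_) (by positivity)
  · rw [nsmul_eq_mul]
    refine mul_le_mul_of_nonneg_right ?_ (by positivity)
    have : ((range N).filter (fun j : ℕ => ((j : ℤ) - k).natAbs = d)).card ≤ 2 :=
      (card_le_card (t := {k + d, k - d}) (fun j hj => by
        simp only [mem_filter, mem_insert, mem_singleton] at hj ⊢; omega)).trans card_le_two
    exact_mod_cast this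
  · rw [← mul_sum]
    exact mul_le_mul_of_nonneg_left (sum_le_hasSum _ (fun _ _ => by positivity)
      (hasSum_geometric_of_lt_one (by positivity) r1)) (by norm_num)

def QQ (a b c x y z : ℝ) : ℝ := (b * z + c * y) ^ 2 + (a * z + c * x) ^ 2 + (a * y + b * x) ^ 2

lemma uk1 {a q : ℝ} (ha : 0 ≤ a) (hq : 0 ≤ q) (q2 : q ^ 2 = 1 / 3) :
    (a - q) ^ 2 ≤ 3 * (a ^ 2 - 1 / 3) ^ 2 := by
  have : 3 * (a ^ 2 - 1 / 3) ^ 2 = (a - q) ^ 2 * (3 * (a + q) ^ 2) := by rw [← q2]; ring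
  rw [this]
  exact le_mul_of_one_le_right (sq_nonneg _) (by nlinarith [mul_nonneg ha hq])

lemma uk2 (a b x y : ℝ) (ha : a ^ 2 ≤ 1) (hb : b ^ 2 ≤ 1) : (a ^ 2 - b ^ 2) ^ 2 ≤
    3 * ((a * x - b * y) ^ 2 + (a - x) ^ 2 + (b - y) ^ 2) := by
  have u1 := mul_le_mul_of_nonneg_right ha (sq_nonneg (a - x))
  have u2 := mul_le_mul_of_nonneg_right hb (sq_nonneg (b - y))
  nlinarith [sq_nonneg (a * x - b * y - a * (a - x)), sq_nonneg (a * x - b * y + b * (b - y)),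
    sq_nonneg (a * (a - x) + b * (b - y))]

lemma unitQ {a b c x y z q : ℝ} (ha : 0 ≤ a) (hb : 0 ≤ b) (hc : 0 ≤ c) (hx : 0 ≤ x) (hy : 0 ≤ y)
    (hz : 0 ≤ z) (hq : 0 ≤ q) (q2 : q ^ 2 = 1 / 3) (h1 : a ^ 2 + b ^ 2 + c ^ 2 = 1)
    (h2 : x ^ 2 + y ^ 2 + z ^ 2 = 1) :
    QQ a b c x y z ≤ 4 / 3 - ((a - q) ^ 2 + (b - q) ^ 2 + (c - q) ^ 2) / 41 := by
  have e1 : QQ a b c x y z = 4 / 3 - (1 - (a * x + b * y + c * z) ^ 2) / 3 - 2 / 3 *
      ((a * x - b * y) ^ 2 + (a * x - c * z) ^ 2 + (b * y - c * z) ^ 2) := by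
    unfold QQ
    linear_combination (x ^ 2 + y ^ 2 + z ^ 2) * h1 + h2
  have e2 : (a - x) ^ 2 + (b - y) ^ 2 + (c - z) ^ 2 = 2 - 2 * (a * x + b * y + c * z) := by
    linear_combination h1 + h2
  have t0 : 0 ≤ a * x + b * y + c * z := by positivity
  have t1 : a * x + b * y + c * z ≤ 1 := by
    linarith [sq_nonneg (a - x), sq_nonneg (b - y), sq_nonneg (c - z)]
  have t2 : (a * x + b * y + c * z) ^ 2 ≤ a * x + b * y + c * z := by
    rw [sq]; exact mul_le_of_le_one_left t0 t1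
  have a1 : a ^ 2 ≤ 1 := by linarith [sq_nonneg b, sq_nonneg c]
  have b1 : b ^ 2 ≤ 1 := by linarith [sq_nonneg a, sq_nonneg c]
  have c1 : c ^ 2 ≤ 1 := by linarith [sq_nonneg b, sq_nonneg a]
  have e3 : 3 * ((a ^ 2 - 1 / 3) ^ 2 + (b ^ 2 - 1 / 3) ^ 2 + (c ^ 2 - 1 / 3) ^ 2) =
      (a ^ 2 - b ^ 2) ^ 2 + (a ^ 2 - c ^ 2) ^ 2 + (b ^ 2 - c ^ 2) ^ 2 := by
    linear_combination (a ^ 2 + b ^ 2 + c ^ 2 - 1) * h1
  linarith [uk1 ha hq q2, uk1 hb hq q2, uk1 hc hq q2, uk2 a b x y a1 b1, uk2 a c x z a1 c1,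
    uk2 b c y z b1 c1, sq_nonneg (a * x - b * y), sq_nonneg (a * x - c * z),
    sq_nonneg (b * y - c * z)]

lemma z3 {a b c : ℝ} (h : 0 ^ 2 = a ^ 2 + b ^ 2 + c ^ 2) : a = 0 ∧ b = 0 ∧ c = 0 :=
  ⟨by nlinarith, by nlinarith, by nlinarith⟩

lemma uk3 (β s q : ℝ) : (β * s - q) ^ 2 ≤ 2 * (β - 1) ^ 2 * s ^ 2 + 2 * (s - q) ^ 2 := by
  nlinarith [sq_nonneg ((β - 1) * s - (s - q))]

lemma rowQ {a b c x y z q : ℝ} (ha : 0 ≤ a) (hb : 0 ≤ b) (hc : 0 ≤ c) (hx : 0 ≤ x) (hy : 0 ≤ y)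
    (hz : 0 ≤ z) (hq : 0 ≤ q) (q2 : q ^ 2 = 1 / 3) (u v w : ℝ) :
    (u * (b * z + c * y) + v * (a * z + c * x) + w * (a * y + b * x)) ^ 2 ≤
      4 / 3 * exp ((u ^ 2 + v ^ 2 + w ^ 2) + (a ^ 2 + b ^ 2 + c ^ 2) + (x ^ 2 + y ^ 2 + z ^ 2) - 3 -
        ((a - q) ^ 2 + (b - q) ^ 2 + (c - q) ^ 2) / 110) := by
  have cs : (u * (b * z + c * y) + v * (a * z + c * x) + w * (a * y + b * x)) ^ 2 ≤
      (u ^ 2 + v ^ 2 + w ^ 2) * QQ a b c x y z := by
    unfold QQ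
    generalize b * z + c * y = A, a * z + c * x = B, a * y + b * x = C
    nlinarith [sq_nonneg (u * B - v * A), sq_nonneg (u * C - w * A), sq_nonneg (v * C - w * B)]
  refine cs.trans ?_
  obtain ⟨β, β0, β2⟩ : ∃ β : ℝ, 0 ≤ β ∧ β ^ 2 = a ^ 2 + b ^ 2 + c ^ 2 :=
    ⟨_, Real.sqrt_nonneg _, Real.sq_sqrt (by positivity)⟩
  obtain ⟨γ, γ0, γ2⟩ : ∃ β : ℝ, 0 ≤ β ∧ β ^ 2 = x ^ 2 + y ^ 2 + z ^ 2 :=
    ⟨_, Real.sqrt_nonneg _, Real.sq_sqrt (by positivity)⟩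
  rcases β0.eq_or_lt with rfl | β0
  · obtain ⟨rfl, rfl, rfl⟩ := z3 β2
    simp only [QQ]; norm_num; positivity
  rcases γ0.eq_or_lt with rfl | γ0
  · obtain ⟨rfl, rfl, rfl⟩ := z3 γ2
    simp only [QQ]; norm_num; positivity
  have u1 : (a / β) ^ 2 + (b / β) ^ 2 + (c / β) ^ 2 = 1 := by
    rw [div_pow, div_pow, div_pow, ← add_div, ← add_div, ← β2, div_self (by positivity)]
  have u2 : (x / γ) ^ 2 + (y / γ) ^ 2 + (z / γ) ^ 2 = 1 := by
    rw [div_pow, div_pow, div_pow, ← add_div, ← add_div, ← γ2, div_self (by positivity)]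
  have h := unitQ (a := a / β) (b := b / β) (c := c / β) (x := x / γ) (y := y / γ) (z := z / γ)
    (by positivity) (by positivity) (by positivity) (by positivity) (by positivity) (by positivity)
    hq q2 u1 u2
  have e : QQ a b c x y z = β ^ 2 * γ ^ 2 * QQ (a / β) (b / β) (c / β) (x / γ) (y / γ) (z / γ) := by
    unfold QQ; field_simp
  set E := (a / β - q) ^ 2 + (b / β - q) ^ 2 + (c / β - q) ^ 2 with hE
  have k : ∀ a : ℝ, (a - q) ^ 2 ≤ 2 * (β - 1) ^ 2 * (a / β) ^ 2 + 2 * (a / β - q) ^ 2 := by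
    intro a
    have := uk3 β (a / β) q
    rwa [mul_div_cancel₀ _ β0.ne'] at this
  have f1 : (a - q) ^ 2 + (b - q) ^ 2 + (c - q) ^ 2 ≤ 2 * (β - 1) ^ 2 + 2 * E := by
    have := k a; have := k b; have := k c
    have : 2 * (β - 1) ^ 2 * ((a / β) ^ 2 + (b / β) ^ 2 + (c / β) ^ 2) = 2 * (β - 1) ^ 2 := by
      rw [u1, mul_one]
    linarith
  have g1 : u ^ 2 + v ^ 2 + w ^ 2 ≤ exp (u ^ 2 + v ^ 2 + w ^ 2 - 1) := by
    linarith [add_one_le_exp (u ^ 2 + v ^ 2 + w ^ 2 - 1)]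
  have g2 : γ ^ 2 ≤ exp (γ ^ 2 - 1) := by linarith [add_one_le_exp (γ ^ 2 - 1)]
  have g3 : β ^ 2 ≤ exp (2 * (β - 1)) := by
    rw [show 2 * (β - 1) = (2 : ℕ) * (β - 1) by norm_num, exp_nat_mul]
    exact pow_le_pow_left₀ β0.le (by linarith [add_one_le_exp (β - 1)]) 2
  have E0 : 0 ≤ E := by positivity
  have g4 : QQ (a / β) (b / β) (c / β) (x / γ) (y / γ) (z / γ) ≤ 4 / 3 * exp (-E / 55) := by
    linarith [add_one_le_exp (-E / 55)]
  have Q0 : 0 ≤ QQ (a / β) (b / β) (c / β) (x / γ) (y / γ) (z / γ) := by unfold QQ; positivity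
  rw [e]
  calc _ ≤ exp (u ^ 2 + v ^ 2 + w ^ 2 - 1) * (exp (2 * (β - 1)) * exp (γ ^ 2 - 1) *
        (4 / 3 * exp (-E / 55))) := by gcongr
    _ = 4 / 3 * exp (u ^ 2 + v ^ 2 + w ^ 2 - 1 + 2 * (β - 1) + (γ ^ 2 - 1) + -E / 55) := by
        rw [exp_add, exp_add, exp_add]; ring
    _ ≤ _ := by
        refine mul_le_mul_of_nonneg_left (exp_le_exp.2 ?_) (by norm_num)
        rw [← β2, ← γ2]
        nlinarith [sq_nonneg (β - 1)]

end Pool.Agent.H.MP_c4b7b1_co
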