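import Pool.Agent.H.MP_c4b7b1_co.A

set_option linter.unusedSectionVars false

namespace Pool.Agent.H.MP_c4b7b1_co
open Finset Real

def rho : Fin 6 → Fin 3 → Fin 3 :=
  ![![0, 1, 2], ![0, 2, 1], ![1, 0, 2], ![1, 2, 0], ![2, 0, 1], ![2, 1, 0]]

lemma rho_surj : ∀ f : Fin 3 → Fin 3, (∀ i j, f i = f j → i = j) → ∃ k, ∀ i, f i = rho k i := by
  decide

def per (Z : Fin 3 × Fin 3 → ℝ) : ℝ := ∑ k : Fin 6, ∏ p, if rho k p.1 = p.2 then Z p else 1

lemma per_eq (Z : Fin 3 × Fin 3 → ℝ) : per Z =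
    Z (0, 0) * (Z (1, 1) * Z (2, 2) + Z (1, 2) * Z (2, 1)) +
    Z (0, 1) * (Z (1, 0) * Z (2, 2) + Z (1, 2) * Z (2, 0)) +
    Z (0, 2) * (Z (1, 0) * Z (2, 1) + Z (1, 1) * Z (2, 0)) := by
  simp [per, rho, Fintype.prod_prod_type, Fin.sum_univ_succ, Fin.prod_univ_succ]
  ring

lemma per_sq (W : Fin 3 × Fin 3 → ℝ) (h : ∀ p, 0 ≤ W p) {q : ℝ} (hq : 0 ≤ q) (q2 : q ^ 2 = 1 / 3) :
    per W ^ 2 ≤ 4 / 3 * exp (∑ p, W p ^ 2 - 3 - (∑ p, (W p - q) ^ 2) / 330) := by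
  have h1 := rowQ (h (1, 0)) (h (1, 1)) (h (1, 2)) (h (2, 0)) (h (2, 1)) (h (2, 2)) hq q2
    (W (0, 0)) (W (0, 1)) (W (0, 2))
  have h2 := rowQ (h (2, 0)) (h (2, 1)) (h (2, 2)) (h (1, 0)) (h (1, 1)) (h (1, 2)) hq q2
    (W (0, 0)) (W (0, 1)) (W (0, 2))
  have h0 := rowQ (h (0, 0)) (h (0, 1)) (h (0, 2)) (h (2, 0)) (h (2, 1)) (h (2, 2)) hq q2
    (W (1, 0)) (W (1, 1)) (W (1, 2))
  simp only [Fintype.sum_prod_type, Fin.sum_univ_three]
  rw [per_eq]
  generalize (W (0, 0) - q) ^ 2 + (W (0, 1) - q) ^ 2 + (W (0, 2) - q) ^ 2 = d0 at *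
  generalize (W (1, 0) - q) ^ 2 + (W (1, 1) - q) ^ 2 + (W (1, 2) - q) ^ 2 = d1 at *
  generalize (W (2, 0) - q) ^ 2 + (W (2, 1) - q) ^ 2 + (W (2, 2) - q) ^ 2 = d2 at *
  by_cases a : d0 + d1 + d2 ≤ 3 * d1
  · exact h1.trans (mul_le_mul_of_nonneg_left (exp_le_exp.2 (by linarith)) (by norm_num))
  by_cases b : d0 + d1 + d2 ≤ 3 * d2
  · exact le_trans (le_of_eq (by ring)) (h2.trans
      (mul_le_mul_of_nonneg_left (exp_le_exp.2 (by linarith)) (by norm_num)))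
  · exact le_trans (le_of_eq (by ring)) (h0.trans
      (mul_le_mul_of_nonneg_left (exp_le_exp.2 (by linarith)) (by norm_num)))

noncomputable def La (m : ℕ) : ℝ := (2 * m / exp 1) ^ (3 * m)

lemma perB : ∃ C, ∀ m N : ℕ, 1 ≤ m → ∑ Z : Fin 3 × Fin 3 → Fin N,
    per (fun p => (Z p : ℕ)) ^ (2 * m) * ∏ p, gw (Z p) ≤ C * ((4 / 3) ^ m * La m) := by
  obtain ⟨C, hC⟩ := latt (c := 1 / 660) (by norm_num)
  refine ⟨(exp 1 * C) ^ 9, fun m N hm => ?_⟩
  have m0 : (0 : ℝ) < m := by exact_mod_cast hm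
  obtain ⟨s, s0, s2⟩ : ∃ s : ℝ, 0 < s ∧ s ^ 2 = 2 * m :=
    ⟨_, Real.sqrt_pos.2 (by positivity), Real.sq_sqrt (by positivity)⟩
  obtain ⟨q, q0, q2⟩ : ∃ s : ℝ, 0 ≤ s ∧ s ^ 2 = 1 / 3 :=
    ⟨_, Real.sqrt_nonneg _, Real.sq_sqrt (by positivity)⟩
  have key : ∀ Z : Fin 3 × Fin 3 → Fin N, per (fun p => (Z p : ℕ)) ^ (2 * m) * ∏ p, gw (Z p) ≤
      (4 / 3) ^ m * La m * ∏ p, exp 1 * exp (-(1 / 660) * |((Z p : ℕ) : ℝ) - s * q|) := by
    intro Z
    have h := per_sq (fun p => (Z p : ℕ) / s) (fun p => by positivity) q0 q2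
    have e : per (fun p => (Z p : ℕ)) = s ^ 3 * per (fun p => (Z p : ℕ) / s) := by
      rw [per_eq, per_eq]; field_simp
    have e2 : (s ^ 3) ^ 2 = (2 * m) ^ 3 := by rw [← s2]; ring
    rw [e, pow_mul, mul_pow, e2]
    refine (mul_le_mul_of_nonneg_right (pow_le_pow_left₀ (by positivity)
      (mul_le_mul_of_nonneg_left h (by positivity)) m)
      (prod_nonneg (fun p _ => (exp_pos _).le))).trans ?_
    simp only [← exp_add, ← exp_sum]
    rw [La, div_pow (2 * m : ℝ), mul_pow, ← pow_mul, mul_pow (4 / 3 : ℝ), ← exp_nat_mul, ← exp_nat_mul,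
      div_eq_mul_inv ((2 * m : ℝ) ^ _), ← exp_neg, mul_left_comm, mul_assoc, mul_assoc, mul_assoc,
      mul_assoc, ← exp_add, ← exp_add]
    refine mul_le_mul_of_nonneg_left (mul_le_mul_of_nonneg_left (exp_le_exp.2 ?_) (by positivity))
      (by positivity)
    have : ∀ p, m * (((Z p : ℕ) / s) ^ 2 - (((Z p : ℕ) : ℝ) / s - q) ^ 2 / 330) + -((Z p : ℕ) : ℝ) ^ 2 / 2 ≤
        1 + -(1 / 660) * |((Z p : ℕ) : ℝ) - s * q| := by
      intro p
      have a : (m : ℝ) = s ^ 2 / 2 := by linarith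
      have b : m * (((Z p : ℕ) / s) ^ 2 - (((Z p : ℕ) : ℝ) / s - q) ^ 2 / 330) =
        ((Z p : ℕ) : ℝ) ^ 2 / 2 - |((Z p : ℕ) : ℝ) - s * q| ^ 2 / 660 := by
        rw [sq_abs, a]; field_simp; ring
      rw [b]
      nlinarith [sq_nonneg (|((Z p : ℕ) : ℝ) - s * q| - 1)]
    have t := sum_le_sum (fun p (_ : p ∈ univ) => this p)
    rw [sum_add_distrib, ← mul_sum, sum_sub_distrib, ← sum_div] at t
    push_cast
    linarith
  refine (sum_le_sum (fun Z _ => key Z)).trans ?_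
  rw [← mul_sum, mul_comm]
  refine mul_le_mul_of_nonneg_right ?_ (by unfold La; positivity)
  have := prod_univ_sum (fun _ : Fin 3 × Fin 3 => (univ : Finset (Fin N)))
    (fun _ j => exp 1 * exp (-(1 / 660) * |((j : ℕ) : ℝ) - s * q|))
  rw [Fintype.piFinset_univ] at this
  rw [← this, prod_const, ← mul_sum, Fin.sum_univ_eq_sum_range
    (fun j => exp (-(1 / 660) * |(j : ℝ) - s * q|))]
  exact pow_le_pow_left₀ (by positivity)
    (mul_le_mul_of_nonneg_left (hC N _ (by positivity)) (by positivity)) _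

lemma sumG : ∃ C, ∀ m N : ℕ, 1 ≤ m → ∑ j ∈ range N,
    (∑ i : Fin 4, (j : ℝ) ^ (i : ℕ) / (i : ℕ).factorial) ^ (2 * m) * gw j ≤
      C * ((3 / 4) ^ m * La m * exp √(6 * m)) := by
  obtain ⟨C, hC⟩ := latt (c := 1) (by norm_num)
  refine ⟨exp 7 * C, fun m N hm => ?_⟩
  have m0 : (0 : ℝ) < m := by exact_mod_cast hm
  have R0 : 0 < √(6 * m : ℝ) := Real.sqrt_pos.2 (by positivity)
  have R2 : √(6 * m : ℝ) ^ 2 = 6 * m := Real.sq_sqrt (by positivity)
  generalize √(6 * m : ℝ) = R at *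
  refine (sum_le_sum (g := fun j : ℕ => (3 / 4) ^ m * La m * exp R * (exp 7 * exp (-1 * |j - R|)))
    (fun j _ => ?_)).trans ?_
  swap
  · rw [← mul_sum, ← mul_sum, mul_comm]
    exact mul_le_mul_of_nonneg_right (mul_le_mul_of_nonneg_left (hC N R R0.le) (by positivity))
      (by unfold La; positivity)
  rw [gw]
  have j0 : (0 : ℝ) ≤ j := by positivity
  generalize (j : ℝ) = x at *
  obtain ⟨w, w0, w2⟩ : ∃ s : ℝ, 0 ≤ s ∧ s ^ 2 = (x + 1) ^ 2 + 4 :=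
    ⟨_, Real.sqrt_nonneg _, Real.sq_sqrt (by positivity)⟩
  have w1 : x + 1 ≤ w := by nlinarith
  have w3 : w ≤ x + 3 := by nlinarith
  have a1 : (∑ i : Fin 4, x ^ (i : ℕ) / (i : ℕ).factorial) ^ 2 ≤ w ^ 6 / 36 := by
    rw [show w ^ 6 = (w ^ 2) ^ 3 by ring, w2]
    simp [Fin.sum_univ_succ, Nat.factorial]
    have : 0 ≤ x ^ 2 := by positivity
    have : 0 ≤ x ^ 3 := by positivity
    have : 0 ≤ x ^ 4 := by positivity
    nlinarith
  have a2 : w ^ 6 ≤ R ^ 6 * exp (6 * (w / R - 1)) := by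
    rw [show 6 * (w / R - 1) = (6 : ℕ) * (w / R - 1) by norm_num, exp_nat_mul, ← mul_pow]
    refine pow_le_pow_left₀ w0 ?_ 6
    rw [← div_le_iff₀' R0]
    linarith [add_one_le_exp (w / R - 1)]
  have a3 : R ^ 6 / 36 = 3 / 4 * (2 * m) ^ 3 := by
    rw [show R ^ 6 = (R ^ 2) ^ 3 by ring, R2]; ring
  rw [pow_mul]
  refine (mul_le_mul_of_nonneg_right (pow_le_pow_left₀ (by positivity)
    (a1.trans (div_le_div_of_nonneg_right a2 (by norm_num))) m) (exp_pos _).le).trans ?_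
  rw [mul_div_right_comm, a3, La, div_pow (2 * m : ℝ), mul_pow, mul_pow, ← pow_mul, ← exp_nat_mul,
    ← exp_nat_mul, div_eq_mul_inv (_ ^ _), ← exp_neg]
  simp only [mul_assoc, ← exp_add]
  refine mul_le_mul_of_nonneg_left (mul_le_mul_of_nonneg_left (exp_le_exp.2 ?_) (by positivity))
    (by positivity)
  have b : (m : ℝ) * (6 * (w / R - 1)) = R * w - R ^ 2 := by
    rw [show (m : ℝ) = R ^ 2 / 6 by linarith]; field_simp
  have c : |x - R| ≤ |w - R| + 3 := by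
    have := abs_sub_le x w R
    have : |x - w| ≤ 3 := abs_le.2 ⟨by linarith, by linarith⟩
    linarith
  have d := le_abs_self (w - R)
  have e := sq_abs (w - R)
  rw [b]
  push_cast
  nlinarith [sq_nonneg (|w - R| - 2)]

lemma coshL {y : ℝ} (hy : 0 ≤ y) {J : ℕ} (hJ : y + 1 ≤ J) :
    exp y / 4 ≤ ∑ j ∈ range J, y ^ (2 * j) / (2 * j).factorial := by
  have h1 := hasSum_sum_of_ne_finset_zero (L := SummationFilter.unconditional ℕ)
    (f := fun j => if j < J then y ^ (2 * j) / (2 * j).factorial else 0) (s := range J)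
    (fun j hj => if_neg (by simpa using hj))
  have h2 := hasSum_le (fun j => ?_) (hasSum_cosh y)
    (h1.add ((hasSum_cosh (2 * y)).mul_left ((1 / 4) ^ J)))
  · rw [sum_congr rfl (fun j hj => if_pos (mem_range.1 hj)), cosh_eq, cosh_eq] at h2
    have a1 : exp (-(2 * y)) ≤ exp (2 * y) := exp_le_exp.2 (by linarith)
    have a2 : (1 / 4) ^ J * exp y ≤ 1 / 4 := by
      obtain ⟨k, rfl⟩ := Nat.exists_eq_succ_of_ne_zero (n := J) (by rintro rfl; simp at hJ; linarith)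
      have : exp y ≤ 4 ^ k := by
        refine (exp_le_exp.2 (by push_cast at hJ; linarith : y ≤ k * 1)).trans ?_
        rw [exp_nat_mul]
        exact pow_le_pow_left₀ (by positivity) (by linarith [exp_one_lt_d9]) _
      refine (mul_le_mul_of_nonneg_left this (by positivity)).trans (le_of_eq ?_)
      rw [pow_succ, mul_right_comm, ← mul_pow]; simp
    have a3 : exp (2 * y) = exp y * exp y := by rw [← exp_add, two_mul]
    have a4 := mul_le_mul_of_nonneg_right a2 (exp_pos y).le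
    have a5 := mul_le_mul_of_nonneg_left a1 (by positivity : (0 : ℝ) ≤ (1 / 4) ^ J)
    have := exp_pos (-y)
    rw [a3] at h2 a5
    nlinarith
  · split_ifs with h
    · exact le_add_of_nonneg_right (by positivity)
    · rw [zero_add, mul_pow, pow_mul 2, ← mul_div_assoc, ← mul_assoc]
      refine div_le_div_of_nonneg_right (le_mul_of_one_le_left (by positivity) ?_) (by positivity)
      obtain ⟨k, rfl⟩ := Nat.exists_eq_add_of_le (not_lt.1 h)
      rw [pow_add, ← mul_assoc, ← mul_pow]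
      norm_num
      exact one_le_pow₀ (by norm_num)

end Pool.Agent.H.MP_c4b7b1_co
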