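import Pool.Agent.H.MP_c4b7b1_co.B

set_option linter.unusedSectionVars false

namespace Pool.Agent.H.MP_c4b7b1_co
open Finset Real Pool.Agent.H.MP_e84969_co

lemma pair_lo {α β : Type} [Finite α] [Finite β] (p : α → Prop) (r : α → β → Prop) (c : ℝ)
    (h : ∀ a, p a → c ≤ cnt (r a)) : cnt p * c ≤ cnt (fun z : α × β => p z.1 ∧ r z.1 z.2) :=
  cnt_lower p Prod.fst c (fun a ha => (h a ha).trans (cnt_inj (fun b => (a, b))
    (fun _ hb => ⟨⟨ha, hb⟩, rfl⟩) (fun _ _ _ _ e => congrArg Prod.snd e)))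

lemma pair_up {α β : Type} [Finite α] [Finite β] (p : α → Prop) (r : α → β → Prop) (c : ℝ)
    (h : ∀ a, p a → cnt (r a) ≤ c) : cnt (fun z : α × β => p z.1 ∧ r z.1 z.2) ≤ cnt p * c :=
  cnt_union p (fun a z => z.1 = a ∧ r a z.2) c (fun z hz => ⟨z.1, hz.1, rfl, hz.2⟩)
    (fun a ha => (cnt_inj Prod.snd (fun _ hz => hz.2)
      (fun _ _ x y e => Prod.ext (x.1.trans y.1.symm) e)).trans (h a ha))

variable {V : Type} [Fintype V] [DecidableEq V]

open Classical in
noncomputable def dg (G : SimpleGraph V) (v : V) : ℕ := (univ.filter (G.Adj v ·)).card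

lemma cnt_adj (G : SimpleGraph V) (v : V) : cnt (G.Adj v) = dg G v := by
  classical
  rw [cnt_eq_card, dg]

def del (G : SimpleGraph V) (u w : V) : SimpleGraph V := G.deleteEdges {s(u, w)}

lemma dg_del {G : SimpleGraph V} {u w : V} (h : G.Adj u w) (x : V) :
    dg G x = dg (del G u w) x + (if x = u then 1 else 0) + (if x = w then 1 else 0) := by
  classical
  have hn := h.ne
  have k : ∀ x y, G.Adj x y → s(x, y) = s(u, w) → dg G x = dg (del G u w) x + 1 := by
    intro x y a e
    unfold dg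
    rw [← card_insert_of_notMem (a := y) (by simp [del, ← e])]
    congr 1; ext z
    simp only [del, mem_filter, mem_univ, true_and, mem_insert, SimpleGraph.deleteEdges_adj,
      Set.mem_singleton_iff, ← e, Sym2.congr_right]
    grind
  split_ifs with a b b
  · exact absurd (a.symm.trans b) hn
  · subst a; exact k _ _ h rfl
  · subst b; exact k _ _ h.symm Sym2.eq_swap
  · unfold dg
    congr 1; ext z
    simp [del, a, b]

lemma del_inj {G G' : SimpleGraph V} {u w : V} (h : G.Adj u w) (h' : G'.Adj u w)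
    (e : del G u w = del G' u w) : G = G' := by
  ext x y
  by_cases a : s(x, y) = s(u, w)
  · rw [← SimpleGraph.mem_edgeSet, ← SimpleGraph.mem_edgeSet, a]; simp [h, h']
  · have := congrArg (fun H : SimpleGraph V => H.Adj x y) e
    simpa [del, a] using this

lemma gd (k : ℕ) : ∀ d : V → ℕ, ∑ v, d v = k →
    cnt (fun G : SimpleGraph V => ∀ v, dg G v = d v) * ∏ v, ((d v).factorial : ℝ) ≤ pm k := by
  induction k using Nat.strong_induction_on with
  | _ k ih =>
  intro d hd
  by_cases h0 : ∀ v, d v = 0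
  · have : k = 0 := by rw [← hd]; simp [h0]
    subst this
    simp only [h0, Nat.factorial_zero, Nat.cast_one, prod_const_one, mul_one, pm]
    refine (cnt_inj (r := fun _ : Unit => True) (fun _ => ()) (fun _ _ => trivial)
      (fun G G' a b _ => ?_)).trans (by simp [cnt_true])
    have : ∀ G : SimpleGraph V, (∀ v, dg G v = 0) → G = ⊥ := fun G a => by
      ext x y; have := a x; simp only [dg, card_eq_zero, filter_eq_empty_iff] at this
      simpa using this (mem_univ y)
    rw [this G a, this G' b]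
  obtain ⟨v, hv⟩ := not_forall.1 h0
  have e1 := add_sum_erase _ d (mem_univ v)
  have h1 := (pair_lo (fun G : SimpleGraph V => ∀ v, dg G v = d v) (fun G => G.Adj v) (d v)
    (fun G hG => by rw [cnt_adj, hG])).trans (cnt_sum (univ.erase v)
      (fun w z => ((∀ v, dg z.1 v = d v) ∧ z.1.Adj v w) ∧ z.2 = w)
      (fun z hz => ⟨z.2, by simpa using hz.2.ne', hz, rfl⟩))
  have h2 : ∀ w ∈ univ.erase v, cnt (fun z : SimpleGraph V × V =>
      ((∀ v, dg z.1 v = d v) ∧ z.1.Adj v w) ∧ z.2 = w) * ∏ v, ((d v).factorial : ℝ) ≤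
      d v * (d w * pm (k - 2)) := by
    intro w hw
    have hw' := ne_of_mem_erase hw
    by_cases w0 : d w = 0
    · rw [cnt_false, zero_mul]
      · positivity
      rintro ⟨G, _⟩ ⟨⟨a, b⟩, -⟩
      have := dg_del b w
      simp only [a, w0] at this
      simp at this
    set d' : V → ℕ := fun x => d x - (if x = v then 1 else 0) - (if x = w then 1 else 0) with hd'
    have e2 : ∀ x, d x = d' x + (if x = v then 1 else 0) + (if x = w then 1 else 0) := by
      intro x; simp only [hd']; split_ifs with a b b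
      · exact absurd (b.symm.trans a) hw'
      · rw [a]; omega
      · rw [b]; omega
      · omega
    have e3 : ∑ x, d' x = k - 2 := by
      have : ∑ x, d x = ∑ x, d' x + 2 := by
        rw [sum_congr rfl (fun x _ => e2 x)]; simp [sum_add_distrib]
      omega
    have e4 : ∏ x, ((d x).factorial : ℝ) = d v * (d w * ∏ x, ((d' x).factorial : ℝ)) := by
      have : ∀ x, ((d x).factorial : ℝ) = (if x = v then (d v : ℝ) else 1) *
          ((if x = w then (d w : ℝ) else 1) * (d' x).factorial) := by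
        intro x
        have := e2 x
        split_ifs at this ⊢ with a b b
        · exact absurd (b.symm.trans a) hw'
        · subst a; rw [this, Nat.factorial_succ]; simp
        · subst b; rw [this, Nat.factorial_succ]; simp
        · rw [this]; simp
      rw [prod_congr rfl (fun x _ => this x), prod_mul_distrib, prod_mul_distrib]; simp
    have e5 : 2 ≤ k := by
      have := single_le_sum (f := d) (fun _ _ => Nat.zero_le _) hw
      omega
    rw [e4, mul_left_comm, mul_left_comm (cnt _)]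
    gcongr
    refine le_trans (mul_le_mul_of_nonneg_right (cnt_inj (fun z => del z.1 v w) ?_ ?_)
      (by positivity)) (ih (k - 2) (by omega) d' e3)
    · rintro ⟨G, _⟩ ⟨⟨a, b⟩, -⟩ x
      have := dg_del b x
      have := a x; have := e2 x
      dsimp only at *; omega
    · rintro ⟨G, _⟩ ⟨G', _⟩ ⟨⟨-, b⟩, c⟩ ⟨⟨-, b'⟩, c'⟩ e
      exact Prod.ext (del_inj b b' e) (c.trans c'.symm)
  have h3 := (mul_le_mul_of_nonneg_right h1 (by positivity : (0 : ℝ) ≤ ∏ v, ((d v).factorial : ℝ))).trans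
    ((sum_mul _ _ _).le.trans (sum_le_sum h2))
  rw [← mul_sum, ← sum_mul, ← Nat.cast_sum, mul_right_comm, mul_comm] at h3
  refine (le_of_mul_le_mul_left h3 (by positivity)).trans ?_
  have : (∑ x ∈ univ.erase v, d x) * pm (k - 2) ≤ pm k := by
    rcases k with _ | _ | k
    · omega
    · rw [show ∑ x ∈ univ.erase v, d x = 0 by omega]; simp
    · exact Nat.mul_le_mul_right _ (by omega)
  exact_mod_cast this

lemma G_up : ∃ C, ∀ m : ℕ, 1 ≤ m → cnt (fun G : SimpleGraph (Fin (2 * m)) => ∀ v, dg G v ≤ 3) ≤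
    C * ((3 / 4) ^ m * La m * exp √(6 * m)) := by
  obtain ⟨C, hC⟩ := sumG
  refine ⟨2 * exp 2 * C, fun m hm => ?_⟩
  refine (cnt_sum (univ : Finset (Fin (2 * m) → Fin 4)) (fun d G => ∀ v, dg G v = d v)
    (fun G h => ⟨fun v => ⟨dg G v, Nat.lt_succ_of_le (h v)⟩, mem_univ _, fun _ => rfl⟩)).trans
    ((sum_le_sum (g := fun d => 2 * exp 2 * ∑ j ∈ range (6 * m + 2),
      (∏ v, (j : ℝ) ^ (d v : ℕ) / (d v : ℕ).factorial) * gw j) (fun d _ => ?_)).trans ?_)
  · have h1 := (gd _ (fun v => (d v : ℕ)) rfl).trans (pm_le _ (6 * m + 2) (by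
      have := sum_le_card_nsmul univ (fun v => (d v : ℕ)) 3 (fun v _ => Nat.le_of_lt_succ (d v).2)
      simp at this ⊢; omega))
    rw [← le_div_iff₀ (by positivity), mul_div_assoc, sum_div] at h1
    refine h1.trans (le_of_eq ?_)
    congr 1
    refine sum_congr rfl (fun j _ => ?_)
    rw [prod_div_distrib, prod_pow_eq_pow_sum]; ring
  · rw [← mul_sum, sum_comm, mul_assoc (2 * exp 2)]
    refine mul_le_mul_of_nonneg_left (le_trans (le_of_eq (sum_congr rfl (fun j _ => ?_)))
      (hC m (6 * m + 2) hm)) (by positivity)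
    have := prod_univ_sum (fun _ : Fin (2 * m) => (univ : Finset (Fin 4)))
      (fun _ i => (j : ℝ) ^ (i : ℕ) / (i : ℕ).factorial)
    rw [Fintype.piFinset_univ] at this
    rw [← sum_mul, ← this]; simp

def EC (G : SimpleGraph V) : Prop :=
  ∃ c : Sym2 V → Fin 3, ∀ u v w, G.Adj u v → G.Adj u w → c s(u, v) = c s(u, w) → v = w

noncomputable def D2 (G : SimpleGraph V) : Finset V := univ.filter (dg G · = 2)

def TT (j : ℕ) (G : SimpleGraph V) : Prop :=
  EC G ∧ (∀ v, dg G v = 2 ∨ dg G v = 3) ∧ (D2 G).card = 2 * j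

lemma TT_succ (j : ℕ) : cnt (TT (V := V) j) * (3 * Fintype.card V - 10 * j) ≤
    cnt (TT (V := V) (j + 1)) * ((2 * j + 2) * (2 * j + 1)) := by
  refine (pair_lo _ (fun G (e : V × V) => G.Adj e.1 e.2 ∧ dg G e.1 = 3 ∧ dg G e.2 = 3) _
    (fun G hG => ?_)).trans (le_trans ?_ (pair_up _
      (fun G (e : V × V) => e.1 ∈ D2 G ∧ e.2 ∈ (D2 G).erase e.1) _ (fun G hG => ?_)))
  · have c2 : cnt (fun v => dg G v = 2) = 2 * j := by
      rw [cnt_eq_card]; exact_mod_cast hG.2.2
    have c3 := cnt_or (p := fun _ : V => True) (fun v _ => hG.2.1 v)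
    rw [cnt_true, c2] at c3
    have a1 := pair_lo (fun v => dg G v = 3) G.Adj 3 (fun v h => by rw [cnt_adj, h]; simp)
    have a2 := pair_up (fun v => dg G v = 2) G.Adj 2 (fun v h => by rw [cnt_adj, h]; simp)
    have a3 : cnt (fun z : V × V => dg G z.2 = 2 ∧ G.Adj z.2 z.1) ≤ _ :=
      (cnt_inj Prod.swap (fun _ h => h) (fun _ _ _ _ e => Prod.swap_injective e)).trans a2
    have a4 := a1.trans ((cnt_or (r := fun e : V × V => G.Adj e.1 e.2 ∧ dg G e.1 = 3 ∧ dg G e.2 = 3)
      (fun z h => (hG.2.1 z.2).symm.imp (fun x => ⟨h.2, h.1, x⟩) (fun x => ⟨x, h.2.symm⟩))).trans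
      (add_le_add le_rfl a3))
    rw [c2] at a4
    linarith
  · refine cnt_inj (fun z => (del z.1 z.2.1 z.2.2, z.2)) ?_ ?_
    · rintro ⟨G, u, w⟩ ⟨⟨⟨c, hc⟩, h2, h3⟩, a, a1, a2⟩
      have hn := a.ne
      have k := dg_del a
      have e : D2 (del G u w) = insert u (insert w (D2 G)) := by
        ext x
        have := k x; have := h2 x
        simp only [D2, mem_filter, mem_univ, true_and, mem_insert] at *
        grind
      dsimp only at *
      refine ⟨⟨⟨c, fun x y z p q => hc x y z p.1 q.1⟩, fun x => ?_, ?_⟩, by simp [e], by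
        simp [e, hn.symm]⟩
      · have := k x; have := h2 x; grind
      · rw [e, card_insert_of_notMem (by simp [D2, hn, a1]), card_insert_of_notMem (by simp [D2, a2]),
          h3]; ring
    · rintro ⟨G, u, w⟩ ⟨G', u', w'⟩ ⟨-, a, -⟩ ⟨-, a', -⟩ e
      simp only [Prod.mk.injEq] at e ⊢
      obtain ⟨e, rfl, rfl⟩ := e
      exact ⟨del_inj a a' e, rfl, rfl⟩
  · refine (pair_up (· ∈ D2 G) (fun u w => w ∈ (D2 G).erase u) (2 * j + 1) (fun u hu => ?_)).trans ?_
    · rw [cnt_eq_card, filter_mem_eq_inter, univ_inter, card_erase_of_mem hu, hG.2.2]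
      exact_mod_cast (by omega)
    · rw [cnt_eq_card, filter_mem_eq_inter, univ_inter, hG.2.2]; push_cast; apply le_of_eq; ring

lemma T_low {m : ℕ} (hm : 300 ≤ m) :
    cnt (TT (V := Fin (2 * m)) 0) * (exp (√(6 * m) - 20) / 4) ≤
      cnt (fun G : SimpleGraph (Fin (2 * m)) => (∀ v, dg G v ≤ 3) ∧ EC G) := by
  have m0 : (300 : ℝ) ≤ m := by exact_mod_cast hm
  have R0 : 40 ≤ √(6 * m : ℝ) := Real.le_sqrt_of_sq_le (by linarith)
  have R2 : √(6 * m : ℝ) ^ 2 = 6 * m := Real.sq_sqrt (by positivity)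
  generalize √(6 * m : ℝ) = R at *
  obtain ⟨J, J1, J2⟩ : ∃ J : ℕ, R + 1 ≤ J ∧ J ≤ R + 2 :=
    ⟨_, Nat.le_ceil _, by linarith [Nat.ceil_lt_add_one (by positivity : 0 ≤ R + 1)]⟩
  obtain ⟨y, y0, y2⟩ : ∃ s : ℝ, 0 ≤ s ∧ s ^ 2 = R ^ 2 - 10 * J :=
    ⟨_, Real.sqrt_nonneg _, Real.sq_sqrt (by nlinarith)⟩
  have y1 : y ≤ R := by nlinarith
  have y3 : R - 20 ≤ y := by nlinarith
  have k : ∀ j ≤ J, cnt (TT (V := Fin (2 * m)) 0) * (y ^ (2 * j) / (2 * j).factorial) ≤
      cnt (TT (V := Fin (2 * m)) j) := by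
    intro j
    induction j with
    | zero => simp
    | succ j ih =>
      intro hj
      have a := TT_succ (V := Fin (2 * m)) j
      have b : (j : ℝ) ≤ J := by exact_mod_cast (by omega)
      have c := mul_le_mul (ih (by omega)) (by simp; linarith : y ^ 2 ≤ _) (by positivity)
        (cnt_nonneg _) |>.trans a
      rw [← div_le_iff₀ (by positivity)] at c
      refine le_trans (le_of_eq ?_) c
      rw [show 2 * (j + 1) = 2 * j + 1 + 1 by ring, Nat.factorial_succ, Nat.factorial_succ]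
      push_cast; field_simp; ring
  refine le_trans ?_ (cnt_fib (range J) (fun G => (D2 G).card / 2))
  refine (mul_le_mul_of_nonneg_left ((div_le_div_of_nonneg_right (exp_le_exp.2 y3)
    (by norm_num)).trans (coshL y0 (J := J) (by linarith))) (cnt_nonneg _)).trans ?_
  rw [mul_sum]
  refine sum_le_sum (fun j hj => (k j (mem_range.1 hj).le).trans (cnt_mono (fun G h =>
    ⟨⟨fun v => by have := h.2.1 v; omega, h.1⟩, by have := h.2.2; omega⟩)))

end Pool.Agent.H.MP_c4b7b1_co
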