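import Pool.Agent.H.MP_c4b7b1_co.C

set_option linter.unusedSectionVars false

namespace Pool.Agent.H.MP_c4b7b1_co
open Finset Real Pool.Agent.H.MP_e84969_co Equiv

lemma cnt_prod {α β : Type} [Fintype α] [DecidableEq α] [Finite β] (p : α → β → Prop) :
    cnt (fun f : α → β => ∀ a, p a (f a)) = ∏ a, cnt (p a) := by
  classical
  have := Fintype.ofFinite β
  simp only [cnt_eq_card]
  rw [← Nat.cast_prod, ← Fintype.card_piFinset]
  congr 2; ext f; simp

lemma cnt_pair {α β : Type} [Finite α] [Finite β] (p : α → Prop) (q : β → Prop) :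
    cnt (fun z : α × β => p z.1 ∧ q z.2) = cnt p * cnt q :=
  le_antisymm (pair_up p (fun _ => q) _ (fun _ _ => le_rfl))
    (pair_lo p (fun _ => q) _ (fun _ _ => le_rfl))

lemma cnt_cs {α β : Type} [Finite α] [Finite β] (p : α → Prop) (s : β → Prop) (f : α → β)
    (h : ∀ a, p a → s (f a)) :
    cnt p ^ 2 ≤ cnt s * cnt (fun z : α × α => (p z.1 ∧ p z.2) ∧ f z.1 = f z.2) := by
  classical
  have := Fintype.ofFinite β
  refine (pow_le_pow_left₀ (cnt_nonneg _) (cnt_sum (univ.filter s) (fun b a => p a ∧ f a = b)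
    (fun a ha => ⟨f a, by simpa using h a ha, ha, rfl⟩)) 2).trans (sq_sum_le_card_mul_sum_sq.trans ?_)
  rw [← cnt_eq_card]
  refine mul_le_mul_of_nonneg_left (le_trans (sum_le_sum (fun b _ => ?_))
    (cnt_fib (univ.filter s) (fun z => f z.1))) (cnt_nonneg _)
  rw [sq, ← cnt_pair]
  exact cnt_mono (fun z hz => ⟨⟨⟨hz.1.1, hz.2.1⟩, hz.1.2.trans hz.2.2.symm⟩, hz.1.2⟩)

lemma cnt_one {α : Type} (a : α) : cnt (fun x => x = a) = 1 := by simp [cnt]

variable {V : Type} [Fintype V] [DecidableEq V]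

def PMf (σ : Perm V) : Prop := (∀ x, σ (σ x) = x) ∧ ∀ x, σ x ≠ x

lemma pm_low {m : ℕ} (hm : 1 ≤ m) : (pm (2 * m) : ℝ) ≤ cnt (PMf (V := Fin (2 * m))) := by
  have h := Perm.card_of_cycleType_mul_eq (α := Fin (2 * m)) (Multiset.replicate m 2)
  rw [if_pos ⟨by simp [mul_comm], fun a ha => (Multiset.eq_of_mem_replicate ha).ge⟩,
    Multiset.toFinset_replicate, if_neg (by omega)] at h
  simp only [Fintype.card_fin, Multiset.sum_replicate, smul_eq_mul, mul_comm m, Nat.sub_self,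
    Nat.factorial_zero, Multiset.prod_replicate, one_mul, prod_singleton,
    Multiset.count_replicate_self] at h
  rw [← pm_mul] at h
  rw [← Nat.eq_of_mul_eq_mul_right (by positivity) h, ← cnt_eq_card]
  refine cnt_mono (fun σ hσ => ⟨fun x => ?_, fun x => ?_⟩)
  · have : σ ^ 2 = 1 := orderOf_dvd_iff_pow_eq_one.1 (by
      rw [← Perm.lcm_cycleType, hσ, Multiset.lcm_dvd]
      exact fun b hb => (Multiset.eq_of_mem_replicate hb) ▸ dvd_rfl)
    simpa [sq] using congrArg (fun τ : Perm _ => τ x) this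
  · have := σ.sum_cycleType
    rw [hσ] at this
    have e : σ.support = univ := (card_eq_iff_eq_univ _).1 (by rw [← this]; simp [mul_comm])
    exact Perm.mem_support.1 (e ▸ mem_univ x)

def av (F : Finset (V × V)) (σ : Perm V) : Prop := PMf σ ∧ ∀ x, (x, σ x) ∉ F

lemma sw (F : Finset (V × V)) (hd : ∀ u, cnt (fun x => (u, x) ∈ F ∨ (x, u) ∈ F) ≤ 2) (u v : V) :
    cnt (fun σ => av F σ ∧ σ u = v) * (Fintype.card V - 6) ≤ cnt (av F) := by
  refine (pair_lo _ (fun σ x => x ≠ u ∧ x ≠ v ∧ ¬ ((u, x) ∈ F ∨ (x, u) ∈ F) ∧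
    ¬ ((v, σ x) ∈ F ∨ (σ x, v) ∈ F)) _ (fun σ _ => ?_)).trans
    (cnt_inj (fun z => swap v z.2 * z.1 * swap v z.2) ?_ ?_)
  · have a : cnt (fun x => (v, σ x) ∈ F ∨ (σ x, v) ∈ F) ≤ 2 :=
      (cnt_inj (r := fun x => (v, x) ∈ F ∨ (x, v) ∈ F) (fun x => σ x) (fun _ h => h)
        (fun _ _ _ _ e => σ.injective e)).trans (hd v)
    have b := (cnt_or (p := fun _ : V => True) (r := fun x => x ≠ u ∧ x ≠ v ∧
      ¬ ((u, x) ∈ F ∨ (x, u) ∈ F) ∧ ¬ ((v, σ x) ∈ F ∨ (σ x, v) ∈ F)) (fun x _ => by tauto)).trans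
      (add_le_add le_rfl ((cnt_or (fun _ h => h)).trans (add_le_add (cnt_one u).le
      ((cnt_or (fun _ h => h)).trans (add_le_add (cnt_one v).le ((cnt_or (fun _ h => h)).trans
      (add_le_add (hd u) a)))))))
    rw [cnt_true] at b
    linarith
  · rintro ⟨σ, x⟩ ⟨⟨⟨⟨p1, p2⟩, p3⟩, e⟩, x1, x2, x3, x4⟩
    dsimp only at *
    refine ⟨⟨fun z => by simp [p1], fun z h => p2 (swap v x z) ?_⟩, fun z => ?_⟩
    · simpa using congrArg (swap v x) h
    · have := p1 z; have := p1 u; have := p1 x; have := p2 x; have := p2 u; have := p3 z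
      simp only [Perm.mul_apply, swap_apply_def]
      grind
  · rintro ⟨σ, x⟩ ⟨σ', x'⟩ ⟨⟨⟨⟨-, p2⟩, -⟩, e⟩, x1, -⟩ ⟨⟨-, e'⟩, x1', -⟩ h
    dsimp only at *
    have hu : u ≠ v := fun h => p2 u (e.trans h.symm)
    have : x = x' := by
      have := congrArg (fun τ : Perm V => τ u) h
      simpa [swap_apply_of_ne_of_ne hu x1.symm, swap_apply_of_ne_of_ne hu x1'.symm, e, e'] using this
    subst this
    rw [mul_left_cancel (mul_right_cancel h)]

lemma avoid (hn : 12 ≤ Fintype.card V) (F : Finset (V × V)) :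
    (∀ u, cnt (fun x => (u, x) ∈ F ∨ (x, u) ∈ F) ≤ 2) →
    cnt (PMf (V := V)) * exp (-4 / Fintype.card V) ^ F.card ≤ cnt (av F) := by
  induction F using Finset.induction_on with
  | empty => intro _; simpa using cnt_mono (fun σ h => ⟨h, by simp⟩)
  | insert e F he ih =>
    intro hd
    have hd' : ∀ u, cnt (fun x => (u, x) ∈ F ∨ (x, u) ∈ F) ≤ 2 := fun u =>
      (cnt_mono (fun x h => h.imp mem_insert_of_mem mem_insert_of_mem)).trans (hd u)
    have a := sw F hd' e.1 e.2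
    have b := cnt_or (p := av F) (r := av (insert e F)) (s := fun σ => av F σ ∧ σ e.1 = e.2)
      (fun σ h => by
        by_cases c : σ e.1 = e.2
        · exact Or.inr ⟨h, c⟩
        · refine Or.inl ⟨h.1, fun x hx => (mem_insert.1 hx).elim (fun y => c ?_) (h.2 x)⟩
          rw [← y])
    rw [card_insert_of_notMem he, pow_succ, ← mul_assoc]
    refine (mul_le_mul_of_nonneg_right (ih hd') (exp_pos _).le).trans ?_
    have n0 : (12 : ℝ) ≤ Fintype.card V := by exact_mod_cast hn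
    generalize (Fintype.card V : ℝ) = n at *
    have c : exp (-4 / n) ≤ 1 - 1 / (n - 6) := by
      rw [neg_div, exp_neg, inv_le_comm₀ (exp_pos _) (by
        rw [sub_pos, div_lt_one (by linarith)]; linarith)]
      refine le_trans ?_ (add_one_le_exp _)
      have : n - 6 ≠ 0 := by linarith
      rw [one_sub_div this, inv_div, div_add_one (by linarith), div_le_div_iff₀ (by linarith) (by linarith)]
      nlinarith
    rw [← le_div_iff₀ (by linarith)] at a
    refine (mul_le_mul_of_nonneg_left c (cnt_nonneg _)).trans ?_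
    rw [mul_sub, mul_one_div]; linarith

lemma av2 (hn : 12 ≤ Fintype.card V) {a b : Perm V} (ha : PMf a) (hb : PMf b) :
    cnt (PMf (V := V)) * exp (-8) ≤ cnt (fun σ => PMf σ ∧ ∀ x, σ x ≠ a x ∧ σ x ≠ b x) := by
  have h := avoid hn (univ.image (fun x => (x, a x)) ∪ univ.image (fun x => (x, b x))) (fun u => by
    refine (cnt_or (fun x h => ?_)).trans ((add_le_add (cnt_one (a u)).le (cnt_one (b u)).le).trans
      (by norm_num))
    have := ha.1 x; have := hb.1 x
    simp only [mem_union, mem_image, mem_univ, true_and, Prod.mk.injEq] at h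
    grind)
  refine le_trans (mul_le_mul_of_nonneg_left ?_ (cnt_nonneg _)) (h.trans (cnt_mono
    (fun σ h => ⟨h.1, fun x => by have := h.2 x; simp at this; tauto⟩)))
  have n0 : (12 : ℝ) ≤ Fintype.card V := by exact_mod_cast hn
  refine le_trans (le_of_eq ?_) (pow_le_pow_of_le_one (exp_pos _).le (exp_le_one_iff.2
    (div_nonpos_of_nonpos_of_nonneg (by norm_num) (by linarith)))
    ((card_union_le _ _).trans (add_le_add card_image_le card_image_le)))
  rw [← exp_nat_mul]; congr 1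
  simp only [card_univ]; push_cast; field_simp; ring

def Tr (s : Fin 3 → Perm V) : Prop := (∀ i, PMf (s i)) ∧ ∀ x i j, s i x = s j x → i = j

lemma Tr_low (hn : 12 ≤ Fintype.card V) :
    cnt (PMf (V := V)) ^ 3 * exp (-16) ≤ cnt (Tr (V := V)) := by
  have h1 := pair_lo (PMf (V := V)) _ _ (fun a ha => av2 hn ha ha)
  have h2 := pair_lo (fun z : Perm V × Perm V => PMf z.1 ∧ PMf z.2 ∧ ∀ x, z.2 x ≠ z.1 x ∧ z.2 x ≠ z.1 x)
    _ _ (fun z hz => av2 hn hz.1 hz.2.1)
  refine le_trans (le_of_eq ?_) ((mul_le_mul_of_nonneg_right h1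
    (mul_nonneg (cnt_nonneg _) (exp_pos _).le)).trans (h2.trans
    (cnt_inj (fun z => ![z.1.1, z.1.2, z.2]) ?_ ?_)))
  · rw [show (-16 : ℝ) = -8 + -8 by norm_num, exp_add]; ring
  · rintro ⟨⟨a, b⟩, c⟩ ⟨⟨h1, h2, h3⟩, h4, h5⟩
    refine ⟨fun i => by fin_cases i <;> assumption, fun x i j => ?_⟩
    have := h3 x; have := h5 x
    fin_cases i <;> fin_cases j <;> simp at * <;> tauto
  · rintro ⟨⟨a, b⟩, c⟩ ⟨⟨a', b'⟩, c'⟩ - - h
    exact Prod.ext (Prod.ext (congrFun h 0) (congrFun h 1)) (congrFun h 2)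

def gr (s : Fin 3 → Perm V) : SimpleGraph V := SimpleGraph.fromRel (fun x y => ∃ i, s i x = y)

lemma gr_adj {s : Fin 3 → Perm V} (h : Tr s) (x y : V) : (gr s).Adj x y ↔ ∃ i, s i x = y := by
  rw [gr, SimpleGraph.fromRel_adj]
  refine ⟨fun ⟨_, a⟩ => a.elim id (fun ⟨i, b⟩ => ⟨i, b ▸ (h.1 i).1 y⟩), fun ⟨i, a⟩ =>
    ⟨fun e => (h.1 i).2 x (a.trans e.symm), Or.inl ⟨i, a⟩⟩⟩

lemma gr_TT {s : Fin 3 → Perm V} (h : Tr s) : TT 0 (gr s) := by
  classical
  have d : ∀ v, dg (gr s) v = 3 := fun v => by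
    have : dg (gr s) v = (univ.image (fun i => s i v)).card := by
      unfold dg; congr 1; ext y; simp [gr_adj h]
    rw [this, card_image_of_injective _ (h.2 v)]; simp
  refine ⟨⟨fun e => if k : ∃ i x, e = s(x, s i x) then k.choose else 0, fun u v w a b c => ?_⟩,
    fun v => Or.inr (d v), by simp [D2, d]⟩
  have key : ∀ v, (gr s).Adj u v →
      s (if k : ∃ i x, s(u, v) = s(x, s i x) then k.choose else 0) u = v := by
    intro v a
    obtain ⟨i, hi⟩ := (gr_adj h _ _).1 a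
    have k : ∃ i x, s(u, v) = s(x, s i x) := ⟨i, u, by rw [hi]⟩
    rw [dif_pos k]
    obtain ⟨x, hx⟩ := k.choose_spec
    rcases Sym2.eq_iff.1 hx with ⟨e1, e2⟩ | ⟨e1, e2⟩
    · exact (congrArg _ e1).trans e2.symm
    · exact (congrArg _ e1).trans (((h.1 _).1 x).trans e2.symm)
  exact (key v a).symm.trans ((congrArg (fun i => s i u) c).trans (key w b))

lemma rho_s : ∀ k j, ∃ i, rho k i = j := by decide

lemma B_up (N : ℕ) (hN : Fintype.card V + 2 ≤ N) :
    cnt (fun z : (Fin 3 → Perm V) × (Fin 3 → Perm V) => (Tr z.1 ∧ Tr z.2) ∧ gr z.1 = gr z.2) ≤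
    (2 * exp 2) ^ 9 * ∑ Z : Fin 3 × Fin 3 → Fin N,
      per (fun p => (Z p : ℕ)) ^ Fintype.card V * ∏ p, gw (Z p) := by
  refine (cnt_sum (univ : Finset (V → Fin 6)) (fun κ z => (Tr z.1 ∧ Tr z.2) ∧
    ∀ x i, z.1 i x = z.2 (rho (κ x) i) x) ?_).trans ((sum_le_sum (g := fun κ => (2 * exp 2) ^ 9 *
      ∑ Z : Fin 3 × Fin 3 → Fin N, (∏ v, ∏ p, if rho (κ v) p.1 = p.2 then ((Z p : ℕ) : ℝ) else 1) *
        ∏ p, gw (Z p)) (fun κ _ => ?_)).trans (le_of_eq ?_))
  · rintro ⟨s, s'⟩ ⟨⟨h, h'⟩, e⟩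
    have : ∀ x, ∃ k, ∀ i, s i x = s' (rho k i) x := by
      intro x
      choose f hf using fun i => (gr_adj h' x (s i x)).1 (e ▸ (gr_adj h x _).2 ⟨i, rfl⟩)
      obtain ⟨k, hk⟩ := rho_surj f (fun i j a => h.2 x i j (by rw [← hf, ← hf, a]))
      exact ⟨k, fun i => by rw [← hk, hf]⟩
    choose κ hκ using this
    exact ⟨κ, mem_univ _, ⟨h, h'⟩, hκ⟩
  · have adj : ∀ s s' : Fin 3 → Perm V, Tr s → Tr s' → ∀ i j x y,
        (SimpleGraph.fromRel (fun x y => s i x = y ∧ s' j x = y)).Adj x y ↔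
          s i x = y ∧ s' j x = y := by
      intro s s' h h' i j x y
      rw [SimpleGraph.fromRel_adj]
      have := (h.1 i).1 y; have := (h'.1 j).1 y; have := (h.1 i).2 x
      grind
    refine (cnt_inj (r := fun M : Fin 3 × Fin 3 → SimpleGraph V => ∀ p, ∀ v, dg (M p) v =
      if rho (κ v) p.1 = p.2 then 1 else 0)
      (fun z p => SimpleGraph.fromRel (fun x y => z.1 p.1 x = y ∧ z.2 p.2 x = y)) ?_ ?_).trans ?_
    · rintro ⟨s, s'⟩ ⟨⟨h, h'⟩, e⟩ ⟨i, j⟩ v
      have := e v i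
      have := h'.2 v j (rho (κ v) i)
      unfold dg
      split_ifs with a
      · refine card_eq_one.2 ⟨s i v, ?_⟩
        ext y; simp only [mem_filter, mem_univ, true_and, mem_singleton, adj s s' h h']; grind
      · refine card_eq_zero.2 ?_
        ext y; simp only [mem_filter, mem_univ, true_and, adj s s' h h']; grind
    · rintro ⟨s, s'⟩ ⟨t, t'⟩ ⟨⟨h, h'⟩, e⟩ ⟨⟨k, k'⟩, e'⟩ c
      have a : ∀ i x, t i x = s i x := fun i x => ((adj t t' k k' i (rho (κ x) i) x _).1
        ((congrFun c (i, rho (κ x) i)) ▸ (adj s s' h h' i _ x _).2 ⟨rfl, (e x i).symm⟩)).1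
      refine Prod.ext (funext fun i => Perm.ext fun x => (a i x).symm)
        (funext fun j => Perm.ext fun x => ?_)
      obtain ⟨i, rfl⟩ := rho_s (κ x) j
      exact (e x i).symm.trans ((a i x).symm.trans (e' x i))
    · rw [cnt_prod (fun (p : Fin 3 × Fin 3) (G : SimpleGraph V) => ∀ v, dg G v =
        if rho (κ v) p.1 = p.2 then 1 else 0)]
      refine (prod_le_prod (fun _ _ => cnt_nonneg _) (g := fun p => 2 * exp 2 * ∑ j : Fin N,
        (∏ v, if rho (κ v) p.1 = p.2 then ((j : ℕ) : ℝ) else 1) * gw j) (fun p _ => ?_)).trans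
        (le_of_eq ?_)
      · have h1 := (gd _ (fun v => if rho (κ v) p.1 = p.2 then 1 else 0) rfl).trans (pm_le _ N (by
          have := sum_le_card_nsmul univ (fun v => if rho (κ v) p.1 = p.2 then 1 else 0) 1
            (fun v _ => by split_ifs <;> simp)
          simp only [card_univ, smul_eq_mul, mul_one] at this; omega))
        rw [prod_eq_one (fun v _ => by split_ifs <;> simp), mul_one, ← Fin.sum_univ_eq_sum_range
          (fun j => (j : ℝ) ^ _ * gw j)] at h1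
        simpa only [← prod_pow_eq_pow_sum, pow_ite, pow_one, pow_zero] using h1
      · rw [prod_mul_distrib, prod_univ_sum, Fintype.piFinset_univ]
        congr 1
        · simp
        · exact sum_congr rfl (fun Z _ => by rw [prod_mul_distrib, prod_comm])
  · rw [← mul_sum, sum_comm]
    congr 1
    refine sum_congr rfl (fun Z _ => ?_)
    have := prod_univ_sum (fun _ : V => (univ : Finset (Fin 6)))
      (fun _ k => ∏ p, if rho k p.1 = p.2 then ((Z p : ℕ) : ℝ) else 1)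
    rw [Fintype.piFinset_univ] at this
    rw [← sum_mul, ← this, prod_const, card_univ, per]

theorem main : ∃ c : ℝ, 0 < c ∧ ∀ m : ℕ, 300 ≤ m →
    c * cnt (fun G : SimpleGraph (Fin (2 * m)) => ∀ v, dg G v ≤ 3) ≤
      cnt (fun G : SimpleGraph (Fin (2 * m)) => (∀ v, dg G v ≤ 3) ∧ EC G) := by
  obtain ⟨C1, h1⟩ := perB
  obtain ⟨C2, h2⟩ := G_up
  set K := (2 * exp 2) ^ 9 * (|C1| + 1) with hK
  have K0 : 0 < K := by positivity
  refine ⟨exp (-16) ^ 2 / K * (exp (-20) / 4) / (|C2| + 1), by positivity, fun m hm => ?_⟩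
  have m0 : (0 : ℝ) < m := by exact_mod_cast (by omega)
  have L0 : 0 < La m := by unfold La; positivity
  have a1 : La m * exp (-16) ≤ cnt (Tr (V := Fin (2 * m))) := by
    refine le_trans (mul_le_mul_of_nonneg_right ?_ (exp_pos _).le) (Tr_low (by simp; omega))
    rw [La, pow_mul']
    exact pow_le_pow_left₀ (by positivity) ((pm_bd m).1.trans (pm_low (by omega))) 3
  have a0 := B_up (V := Fin (2 * m)) (2 * m + 2) (by simp)
  rw [Fintype.card_fin] at a0
  have a2 := a0.trans (mul_le_mul_of_nonneg_left ((h1 m _ (by omega)).trans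
    (mul_le_mul_of_nonneg_right ((le_abs_self _).trans (le_add_of_nonneg_right zero_le_one))
      (by positivity))) (by positivity))
  have a3 := (pow_le_pow_left₀ (by positivity) a1 2).trans ((cnt_cs Tr (TT 0) gr
    (fun _ h => gr_TT h)).trans (mul_le_mul_of_nonneg_left a2 (cnt_nonneg _)))
  have a4 : exp (-16) ^ 2 / K * ((3 / 4) ^ m * La m) ≤ cnt (TT (V := Fin (2 * m)) 0) := by
    rw [← mul_assoc ((2 * exp 2) ^ 9), ← hK, ← div_le_iff₀ (by positivity)] at a3
    refine le_trans (le_of_eq ?_) a3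
    rw [div_pow, div_pow]; field_simp
  refine le_trans ?_ ((mul_le_mul_of_nonneg_right a4 (by positivity)).trans (T_low hm))
  refine (mul_le_mul_of_nonneg_left ((h2 m (by omega)).trans (mul_le_mul_of_nonneg_right
    ((le_abs_self _).trans (le_add_of_nonneg_right zero_le_one)) (by positivity)))
    (by positivity)).trans (le_of_eq ?_)
  rw [sub_eq_add_neg, exp_add]; field_simp

end Pool.Agent.H.MP_c4b7b1_co
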