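import Pool.Agent.H.MP_c4b7b1_co.D

set_option linter.unusedSectionVars false

namespace Pool.Agent.H.MP_c4b7b1_co
open Finset Real

lemma xk1 {h g b q : ℝ} (q0 : 0 ≤ q) (q1 : q ≤ 1) (h1 : h ^ 2 ≤ 1) (g1 : g ^ 2 ≤ 1) :
    ((2 * h + h ^ 2) - q ^ 2 * (2 * g + g ^ 2) - q * b * (1 + g)) ^ 2 ≤
      27 * (h ^ 2 + g ^ 2 + b ^ 2) := by
  have a1 : (2 * h + h ^ 2) ^ 2 ≤ 9 * h ^ 2 := by
    have : (2 + h) ^ 2 ≤ 9 := by nlinarith
    nlinarith [mul_le_mul_of_nonneg_left this (sq_nonneg h)]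
  have a2 : (2 * g + g ^ 2) ^ 2 ≤ 9 * g ^ 2 := by
    have : (2 + g) ^ 2 ≤ 9 := by nlinarith
    nlinarith [mul_le_mul_of_nonneg_left this (sq_nonneg g)]
  have a3 : (b * (1 + g)) ^ 2 ≤ 9 * b ^ 2 := by
    have : (1 + g) ^ 2 ≤ 9 := by nlinarith
    nlinarith [mul_le_mul_of_nonneg_left this (sq_nonneg b)]
  have b1 : q ^ 2 ≤ 1 := pow_le_one₀ q0 q1
  have b2 : (q ^ 2) ^ 2 ≤ 1 := pow_le_one₀ (sq_nonneg _) b1
  have c2 : (q ^ 2 * (2 * g + g ^ 2)) ^ 2 ≤ 9 * g ^ 2 := by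
    rw [mul_pow]; exact (mul_le_of_le_one_left (sq_nonneg _) b2).trans a2
  have c3 : (q * b * (1 + g)) ^ 2 ≤ 9 * b ^ 2 := by
    rw [mul_assoc, mul_pow]; exact (mul_le_of_le_one_left (sq_nonneg _) b1).trans a3
  generalize 2 * h + h ^ 2 = A, q ^ 2 * (2 * g + g ^ 2) = B, q * b * (1 + g) = C at *
  nlinarith [sq_nonneg (A + B), sq_nonneg (A + C), sq_nonneg (B - C)]

lemma xk2 {x y h g b q p : ℝ} (x0 : 0 ≤ x) (p0 : 0 ≤ p) (q0 : 0 ≤ q) (q2 : q ^ 2 ≤ 1 / 2)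
    (p2 : p ^ 2 = 1 - q ^ 2) (t0 : 0 ≤ q * (1 + g) * (q * (1 + g) + b))
    (e : x * y = (1 + h) ^ 2 - q * (1 + g) * (q * (1 + g) + b)) :
    (x - p) ^ 2 ≤ 150 * ((x - y) ^ 2 + b ^ 2 + g ^ 2 + h ^ 2) := by
  have s1 := sq_nonneg (x - y); have s2 := sq_nonneg b; have s3 := sq_nonneg g
  have s4 := sq_nonneg h; have s5 := sq_nonneg q
  have u : x ^ 2 ≤ 4 + 4 * h ^ 2 + (x - y) ^ 2 := by nlinarith [sq_nonneg y, sq_nonneg (1 - h)]
  rcases le_total ((x - y) ^ 2 + b ^ 2 + g ^ 2 + h ^ 2) 1 with E | E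
  · have a := xk1 (h := h) (g := g) (b := b) q0 (by nlinarith) (by linarith) (by linarith)
    have e2 : (2 * h + h ^ 2) - q ^ 2 * (2 * g + g ^ 2) - q * b * (1 + g) = x * y - p ^ 2 := by
      rw [e, p2]; ring
    rw [e2] at a
    have c : (x * (x - y)) ^ 2 ≤ 9 * (x - y) ^ 2 := by
      rw [mul_pow]; exact mul_le_mul_of_nonneg_right (by linarith) s1
    have d : (x ^ 2 - p ^ 2) ^ 2 ≤ 2 * (x * y - p ^ 2) ^ 2 + 2 * (x * (x - y)) ^ 2 := by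
      nlinarith [sq_nonneg (x * y - p ^ 2 - x * (x - y))]
    have f : (x - p) ^ 2 ≤ 2 * (x ^ 2 - p ^ 2) ^ 2 := by
      rw [show 2 * (x ^ 2 - p ^ 2) ^ 2 = (x - p) ^ 2 * (2 * (x + p) ^ 2) by ring]
      exact le_mul_of_one_le_right (sq_nonneg _) (by nlinarith [mul_nonneg x0 p0])
    linarith
  · nlinarith [sq_nonneg (x + p)]

lemma pt4 (k : ℕ) (hk : 1 ≤ k) {x y z w q p : ℝ} (x0 : 0 ≤ x) (y0 : 0 ≤ y) (z0 : 0 ≤ z) (w0 : 0 ≤ w)
    (p0 : 0 ≤ p) (q0 : 0 < q) (q2 : q ^ 2 = 1 / (k + 2)) (p2 : p ^ 2 = 1 - q ^ 2) :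
    (w ^ k * (z * w + (k + 1) * (x * y))) ^ 2 ≤ (k + 1) ^ (2 * k + 2) / (k + 2) ^ k *
      exp (x ^ 2 + y ^ 2 + z ^ 2 + w ^ 2 - (k + 2) - ((x - p) ^ 2 + (y - p) ^ 2 + (z - q) ^ 2 +
        (w - (k + 1) * q) ^ 2) / ((k + 1) ^ 2 + 302)) := by
  have k1 : (1 : ℝ) ≤ k := by exact_mod_cast hk
  obtain ⟨r, r0, r2⟩ : ∃ r : ℝ, 0 ≤ r ∧ r ^ 2 = z * w / (k + 1) + x * y :=
    ⟨_, Real.sqrt_nonneg _, Real.sq_sqrt (by positivity)⟩
  obtain ⟨g, hg⟩ : ∃ g, w = (k + 1) * (q * (1 + g)) := ⟨w / ((k + 1) * q) - 1, by field_simp; ring⟩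
  obtain ⟨b, hb⟩ : ∃ b, z = q * (1 + g) + b := ⟨z - q * (1 + g), by ring⟩
  obtain ⟨h, rfl⟩ : ∃ h, r = 1 + h := ⟨r - 1, by ring⟩
  have g0 : 0 ≤ 1 + g := by
    rw [hg] at w0
    exact nonneg_of_mul_nonneg_right (a := q) (nonneg_of_mul_nonneg_right w0 (by positivity)) q0
  have e0 : z * w / (k + 1) = q * (1 + g) * z := by rw [hg]; field_simp
  have q3 : q ^ 2 ≤ 1 / 2 := by rw [q2]; exact one_div_le_one_div_of_le (by norm_num) (by linarith)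
  have e : x * y = (1 + h) ^ 2 - q * (1 + g) * (q * (1 + g) + b) := by rw [r2, e0, hb]; ring
  have t0 : 0 ≤ q * (1 + g) * (q * (1 + g) + b) := by rw [← hb]; positivity
  have a1 := xk2 x0 p0 q0.le q3 p2 t0 e
  have a2 := xk2 y0 p0 q0.le q3 p2 t0 (mul_comm x y ▸ e)
  have a3 : (z - q) ^ 2 ≤ 2 * (g ^ 2 + b ^ 2) := by
    have := mul_le_mul_of_nonneg_right q3 (sq_nonneg g)
    rw [hb]; nlinarith [sq_nonneg (q * g - b), sq_nonneg g]
  have a4 : (w - (k + 1) * q) ^ 2 ≤ (k + 1) ^ 2 * g ^ 2 := by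
    rw [show (w - (k + 1) * q) ^ 2 = (k + 1) ^ 2 * (q ^ 2 * g ^ 2) by rw [hg]; ring]
    exact mul_le_mul_of_nonneg_left (mul_le_of_le_one_left (sq_nonneg _) (by linarith)) (sq_nonneg _)
  have a5 : ((x - p) ^ 2 + (y - p) ^ 2 + (z - q) ^ 2 + (w - (k + 1) * q) ^ 2) / ((k + 1) ^ 2 + 302) ≤
      (x - y) ^ 2 + b ^ 2 + g ^ 2 + h ^ 2 := by
    rw [div_le_iff₀ (by positivity)]
    rw [show (y - x) ^ 2 = (x - y) ^ 2 by ring] at a2
    have : 0 ≤ ((k : ℝ) + 1) ^ 2 * ((x - y) ^ 2 + b ^ 2 + h ^ 2) := by positivity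
    nlinarith [sq_nonneg (x - y), sq_nonneg h]
  have b1 : (1 + h) ^ 4 ≤ exp (4 * h) := by
    rw [show 4 * h = (4 : ℕ) * h by norm_num, exp_nat_mul]
    exact pow_le_pow_left₀ r0 (by linarith [add_one_le_exp h]) 4
  have b2 : (1 + g) ^ (2 * k) ≤ exp (2 * k * g) := by
    rw [show 2 * k * g = (2 * k : ℕ) * g by norm_num, exp_nat_mul]
    exact pow_le_pow_left₀ g0 (by linarith [add_one_le_exp g]) _
  have e3 : z * w + (k + 1) * (x * y) = (k + 1) * (1 + h) ^ 2 := by rw [r2]; field_simp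
  have e4 : (w ^ k * ((k + 1) * (1 + h) ^ 2)) ^ 2 =
      (k + 1) ^ (2 * k + 2) / (k + 2) ^ k * ((1 + g) ^ (2 * k) * (1 + h) ^ 4) := by
    rw [hg, div_eq_mul_inv, ← inv_pow, ← one_div, ← q2, mul_pow ((k : ℝ) + 1) _ k, mul_pow q]; ring
  rw [e3, e4]
  refine mul_le_mul_of_nonneg_left ((mul_le_mul b2 b1 (by positivity) (exp_pos _).le).trans ?_)
    (by positivity)
  rw [← exp_add]
  refine exp_le_exp.2 (le_trans ?_ (sub_le_sub_left a5 _))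
  have f1 : (k + 2) * q ^ 2 = 1 := by rw [q2]; field_simp
  have f2 : w ^ 2 = k * (1 + g) ^ 2 + (q * (1 + g)) ^ 2 := by
    rw [hg]; linear_combination k * (1 + g) ^ 2 * f1
  have f3 := mul_le_mul_of_nonneg_right k1 (sq_nonneg g)
  rw [f2, hb]
  nlinarith [sq_nonneg h]

noncomputable def Lb (D m : ℕ) : ℝ := (2 * m * D / exp 1) ^ (D * m) / (D.factorial : ℝ) ^ (2 * m)

noncomputable def t4 (k : ℕ) (Z : Fin 4 → ℝ) : ℝ :=
  Z 2 * (Z 3 ^ (k + 1) / (k + 1).factorial) + Z 0 * Z 1 * (Z 3 ^ k / k.factorial)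

lemma sum4 (k : ℕ) (hk : 1 ≤ k) : ∃ C, ∀ m N : ℕ, 1 ≤ m → ∑ Z : Fin 4 → Fin N,
    t4 k (fun p => (Z p : ℕ)) ^ (2 * m) * ∏ p, gw (Z p) ≤ C * ((2 * m / exp 1) ^ ((k + 2) * m) *
      ((k + 1) ^ (2 * k + 2) / (k + 2) ^ k / ((k + 1).factorial : ℝ) ^ 2) ^ m) := by
  set L : ℝ := (k + 1) ^ 2 + 302 with hL
  have L1 : 1 ≤ L := by rw [hL]; nlinarith [sq_nonneg ((k : ℝ) + 1)]
  obtain ⟨C, hC⟩ := latt (c := 1 / L) (by positivity)
  refine ⟨(exp 1 * C) ^ 4, fun m N hm => ?_⟩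
  have m0 : (0 : ℝ) < m := by exact_mod_cast hm
  obtain ⟨s, s0, s2⟩ : ∃ s : ℝ, 0 < s ∧ s ^ 2 = 2 * m :=
    ⟨_, Real.sqrt_pos.2 (by positivity), Real.sq_sqrt (by positivity)⟩
  obtain ⟨q, q0, q2⟩ : ∃ s : ℝ, 0 < s ∧ s ^ 2 = 1 / (k + 2) :=
    ⟨_, Real.sqrt_pos.2 (by positivity), Real.sq_sqrt (by positivity)⟩
  obtain ⟨p, p0, p2⟩ : ∃ s : ℝ, 0 ≤ s ∧ s ^ 2 = 1 - q ^ 2 :=
    ⟨_, Real.sqrt_nonneg _, Real.sq_sqrt (by
      rw [q2, sub_nonneg, div_le_one (by positivity)]; linarith [(by positivity : (0 : ℝ) ≤ k)])⟩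
  set c : Fin 4 → ℝ := ![p, p, q, (k + 1) * q] with hc
  have c0 : ∀ i, 0 ≤ s * c i := fun i => by fin_cases i <;> simp [hc] <;> positivity
  have key : ∀ Z : Fin 4 → Fin N, t4 k (fun p => (Z p : ℕ)) ^ (2 * m) * ∏ p, gw (Z p) ≤
      ((2 * m / exp 1) ^ ((k + 2) * m) * ((k + 1) ^ (2 * k + 2) / (k + 2) ^ k /
      ((k + 1).factorial : ℝ) ^ 2) ^ m) *
      ∏ i, exp 1 * exp (-(1 / L) * |((Z i : ℕ) : ℝ) - s * c i|) := by
    intro Z
    have h := pt4 k hk (x := (Z 0 : ℕ) / s) (y := (Z 1 : ℕ) / s) (z := (Z 2 : ℕ) / s)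
      (w := (Z 3 : ℕ) / s) (by positivity) (by positivity) (by positivity) (by positivity) p0 q0 q2 p2
    have e : t4 k (fun p => (Z p : ℕ)) ^ 2 = (2 * m) ^ (k + 2) / ((k + 1).factorial : ℝ) ^ 2 *
        (((Z 3 : ℕ) / s) ^ k * ((Z 2 : ℕ) / s * ((Z 3 : ℕ) / s) +
          (k + 1) * ((Z 0 : ℕ) / s * ((Z 1 : ℕ) / s)))) ^ 2 := by
      rw [t4, ← s2, Nat.factorial_succ, div_pow (_ : ℝ) s k]; push_cast; field_simp; ring
    rw [pow_mul, e]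
    refine (mul_le_mul_of_nonneg_right (pow_le_pow_left₀ (by positivity)
      (mul_le_mul_of_nonneg_left h (by positivity)) m)
      (prod_nonneg (fun p _ => (exp_pos _).le))).trans ?_
    simp only [← exp_add, ← exp_sum]
    rw [div_pow (2 * m : ℝ), ← mul_assoc, mul_pow, ← exp_nat_mul, ← exp_nat_mul, mul_assoc, ← exp_add,
      div_mul_eq_mul_div (_ ^ (_ * m)), div_mul_eq_mul_div (_ ^ (_ * m) * _), mul_div_assoc _ (exp _),
      ← exp_sub, pow_mul (2 * m : ℝ), ← mul_pow]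
    refine mul_le_mul (le_of_eq (by congr 1; ring)) (exp_le_exp.2 ?_) (exp_pos _).le (by positivity)
    have : ∀ i, m * (((Z i : ℕ) / s) ^ 2 - (((Z i : ℕ) : ℝ) / s - c i) ^ 2 / L) +
        -((Z i : ℕ) : ℝ) ^ 2 / 2 ≤ 1 + -(1 / L) * |((Z i : ℕ) : ℝ) - s * c i| := by
      intro i
      have a : (m : ℝ) = s ^ 2 / 2 := by linarith
      have b : m * (((Z i : ℕ) / s) ^ 2 - (((Z i : ℕ) : ℝ) / s - c i) ^ 2 / L) =
        ((Z i : ℕ) : ℝ) ^ 2 / 2 - (1 / L) * (|((Z i : ℕ) : ℝ) - s * c i| ^ 2 / 2) := by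
        rw [sq_abs, a]; field_simp
      have d : 1 / L ≤ 1 := (div_le_one (by positivity)).2 L1
      have f : 0 ≤ 1 / L := by positivity
      rw [b]
      nlinarith [mul_nonneg f (sq_nonneg (|((Z i : ℕ) : ℝ) - s * c i| - 1))]
    have t := sum_le_sum (fun p (_ : p ∈ univ) => this p)
    rw [sum_add_distrib, ← mul_sum, sum_sub_distrib, ← sum_div, Fin.sum_univ_four,
      Fin.sum_univ_four] at t
    push_cast
    simp only [hc, Matrix.cons_val_zero, Matrix.cons_val_one, Matrix.cons_val] at t ⊢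
    linarith
  refine (sum_le_sum (fun Z _ => key Z)).trans ?_
  rw [← mul_sum, mul_comm]
  refine mul_le_mul_of_nonneg_right ?_ (by positivity)
  have := prod_univ_sum (fun _ : Fin 4 => (univ : Finset (Fin N)))
    (fun i j => exp 1 * exp (-(1 / L) * |((j : ℕ) : ℝ) - s * c i|))
  rw [Fintype.piFinset_univ] at this
  rw [← this]
  refine (prod_le_prod (g := fun _ => exp 1 * C) (fun _ _ => by positivity) (fun i _ => ?_)).trans
    (by simp)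
  rw [← mul_sum, Fin.sum_univ_eq_sum_range (fun j => exp (-(1 / L) * |(j : ℝ) - s * c i|))]
  exact mul_le_mul_of_nonneg_left (hC N _ (c0 i)) (by positivity)

lemma two_terms {x : ℝ} (hx : 0 ≤ x) (k : ℕ) : x ^ (k + 1) + (k + 1) * x ^ k ≤ (x + 1) ^ (k + 1) := by
  induction k with
  | zero => simp
  | succ k ih =>
    rw [pow_succ (x + 1)]
    refine le_trans ?_ (mul_le_mul_of_nonneg_right ih (by positivity))
    have : 0 ≤ ((k : ℝ) + 1) * x ^ k := by positivity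
    push_cast; ring_nf at this ⊢; linarith

lemma polyP (k : ℕ) : ∃ M : ℝ, 1 ≤ M ∧ ∀ x : ℝ, 0 ≤ x →
    (∑ i : Fin (k + 3), x ^ (i : ℕ) / (i : ℕ).factorial) ^ 2 ≤
      ((x + 1) ^ 2 + M) ^ (k + 2) / ((k + 2).factorial : ℝ) ^ 2 := by
  have f1 : (1 : ℝ) ≤ (k + 2).factorial := by exact_mod_cast Nat.factorial_pos _
  have k0 : (0 : ℝ) ≤ k := by positivity
  refine ⟨(k + 1) * (k + 2).factorial, by nlinarith, fun x hx => ?_⟩
  have a : ∑ i : Fin (k + 3), x ^ (i : ℕ) / (i : ℕ).factorial ≤ (x + 1) ^ k *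
      ((x + 1) ^ 2 + (k + 1) * (k + 2).factorial) / (k + 2).factorial := by
    rw [Fin.sum_univ_eq_sum_range (fun i => x ^ i / i.factorial), sum_range_succ, sum_range_succ]
    have b : ∑ i ∈ range (k + 1), x ^ i / i.factorial ≤ (k + 1) * (x + 1) ^ k := by
      refine (sum_le_card_nsmul _ _ ((x + 1) ^ k) (fun i hi => ?_)).trans (by simp)
      refine (div_le_self (by positivity) (by exact_mod_cast Nat.factorial_pos _)).trans
        ((pow_le_pow_left₀ hx (by linarith) i).trans (pow_le_pow_right₀ (by linarith) ?_))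
      simp at hi; omega
    have c := two_terms hx (k + 1)
    have e : x ^ (k + 1) / (k + 1).factorial + x ^ (k + 2) / (k + 2).factorial =
        (x ^ (k + 1 + 1) + ((k + 1 : ℕ) + 1) * x ^ (k + 1)) / (k + 2).factorial := by
      rw [Nat.factorial_succ (k + 1)]; push_cast; field_simp; ring
    rw [add_assoc, e]
    refine (add_le_add b (div_le_div_of_nonneg_right c (by positivity))).trans (le_of_eq ?_)
    field_simp; ring
  refine (pow_le_pow_left₀ (by positivity) a 2).trans ?_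
  rw [div_pow, mul_pow, pow_add _ k, ← pow_mul, mul_comm k, pow_mul]
  gcongr
  exact le_add_of_nonneg_right (by positivity)

lemma sumG' (k : ℕ) : ∃ C, ∀ m N : ℕ, 1 ≤ m → ∑ j ∈ range N,
    (∑ i : Fin (k + 3), (j : ℝ) ^ (i : ℕ) / (i : ℕ).factorial) ^ (2 * m) * gw j ≤
      C * (Lb (k + 2) m * exp √(2 * m * (k + 2 : ℕ))) := by
  obtain ⟨C, hC⟩ := latt (c := 1) (by norm_num)
  obtain ⟨M, M1, hM⟩ := polyP k
  refine ⟨exp (2 * M + 4) * C, fun m N hm => ?_⟩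
  have m0 : (0 : ℝ) < m := by exact_mod_cast hm
  have R0 : 0 < √(2 * m * (k + 2 : ℕ) : ℝ) := Real.sqrt_pos.2 (by positivity)
  have R2 : √(2 * m * (k + 2 : ℕ) : ℝ) ^ 2 = 2 * m * (k + 2 : ℕ) := Real.sq_sqrt (by positivity)
  generalize √(2 * m * (k + 2 : ℕ) : ℝ) = R at *
  refine (sum_le_sum (g := fun j : ℕ => Lb (k + 2) m * exp R *
    (exp (2 * M + 4) * exp (-1 * |j - R|))) (fun j _ => ?_)).trans ?_
  swap
  · rw [← mul_sum, ← mul_sum, mul_comm]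
    exact mul_le_mul_of_nonneg_right (mul_le_mul_of_nonneg_left (hC N R R0.le) (by positivity))
      (by unfold Lb; positivity)
  rw [gw]
  have j0 : (0 : ℝ) ≤ j := by positivity
  generalize (j : ℝ) = x at *
  obtain ⟨w, w0, w2⟩ : ∃ s : ℝ, 0 ≤ s ∧ s ^ 2 = (x + 1) ^ 2 + M :=
    ⟨_, Real.sqrt_nonneg _, Real.sq_sqrt (by positivity)⟩
  have w1 : x + 1 ≤ w := by nlinarith
  have w3 : w ≤ x + 1 + M := by nlinarith
  have a1 := hM x j0
  have a2 : w ^ 2 ≤ R ^ 2 * exp (2 * (w / R - 1)) := by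
    rw [show 2 * (w / R - 1) = (2 : ℕ) * (w / R - 1) by norm_num, exp_nat_mul, ← mul_pow]
    refine pow_le_pow_left₀ w0 ?_ 2
    rw [← div_le_iff₀' R0]
    linarith [add_one_le_exp (w / R - 1)]
  rw [← w2] at a1
  rw [pow_mul]
  refine (mul_le_mul_of_nonneg_right (pow_le_pow_left₀ (by positivity) (a1.trans
    (div_le_div_of_nonneg_right (pow_le_pow_left₀ (by positivity) a2 _) (by positivity))) m)
    (exp_pos _).le).trans ?_
  rw [Lb, ← R2, div_pow, div_pow, ← pow_mul, ← pow_mul, mul_pow, ← exp_nat_mul, ← exp_nat_mul,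
    div_eq_mul_inv ((R ^ 2) ^ _), ← exp_neg, div_mul_eq_mul_div, div_mul_eq_mul_div,
    div_mul_eq_mul_div]
  simp only [mul_assoc, ← exp_add]
  refine div_le_div_of_nonneg_right (mul_le_mul_of_nonneg_left (exp_le_exp.2 ?_) (by positivity))
    (by positivity)
  have b0 : (((k + 2) * m : ℕ) : ℝ) = R ^ 2 / 2 := by rw [R2]; push_cast; ring
  have b : R ^ 2 / 2 * (2 * (w / R - 1)) = R * w - R ^ 2 := by field_simp
  have c : |x - R| ≤ |w - R| + (1 + M) := by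
    have := abs_sub_le x w R
    have : |x - w| ≤ 1 + M := abs_le.2 ⟨by linarith, by linarith⟩
    linarith
  have d := le_abs_self (w - R)
  have e := sq_abs (w - R)
  rw [b0, b]
  nlinarith [sq_nonneg (|w - R| - 2)]

end Pool.Agent.H.MP_c4b7b1_co
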