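import Pool.Agent.H.MP_c4b7b1_co.E

set_option linter.unusedSectionVars false

namespace Pool.Agent.H.MP_c4b7b1_co
open Finset Real Pool.Agent.H.MP_e84969_co Equiv Filter

variable {V : Type} [Fintype V] [DecidableEq V]

lemma G_up' (k : ℕ) : ∃ C, ∀ m : ℕ, 1 ≤ m →
    cnt (fun G : SimpleGraph (Fin (2 * m)) => ∀ v, dg G v ≤ k + 2) ≤
    C * (Lb (k + 2) m * exp √(2 * m * (k + 2 : ℕ))) := by
  obtain ⟨C, hC⟩ := sumG' k
  refine ⟨2 * exp 2 * C, fun m hm => ?_⟩
  refine (cnt_sum (univ : Finset (Fin (2 * m) → Fin (k + 3))) (fun d G => ∀ v, dg G v = d v)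
    (fun G h => ⟨fun v => ⟨dg G v, Nat.lt_succ_of_le (h v)⟩, mem_univ _, fun _ => rfl⟩)).trans
    ((sum_le_sum (g := fun d => 2 * exp 2 * ∑ j ∈ range (2 * m * (k + 2) + 2),
      (∏ v, (j : ℝ) ^ (d v : ℕ) / (d v : ℕ).factorial) * gw j) (fun d _ => ?_)).trans ?_)
  · have h1 := (gd _ (fun v => (d v : ℕ)) rfl).trans (pm_le _ (2 * m * (k + 2) + 2) (by
      have := sum_le_card_nsmul univ (fun v => (d v : ℕ)) (k + 2)
        (fun v _ => Nat.le_of_lt_succ (d v).2)
      simpa using this))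
    rw [← le_div_iff₀ (by positivity), mul_div_assoc, sum_div] at h1
    refine h1.trans (le_of_eq ?_)
    congr 1
    refine sum_congr rfl (fun j _ => ?_)
    rw [prod_div_distrib, prod_pow_eq_pow_sum]; ring
  · rw [← mul_sum, sum_comm, mul_assoc (2 * exp 2)]
    refine mul_le_mul_of_nonneg_left (le_trans (le_of_eq (sum_congr rfl (fun j _ => ?_)))
      (hC m _ hm)) (by positivity)
    have := prod_univ_sum (fun _ : Fin (2 * m) => (univ : Finset (Fin (k + 3))))
      (fun _ i => (j : ℝ) ^ (i : ℕ) / (i : ℕ).factorial)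
    rw [Fintype.piFinset_univ] at this
    rw [← sum_mul, ← this]; simp only [prod_const, card_univ, Fintype.card_fin]

def ECd (D : ℕ) (G : SimpleGraph V) : Prop :=
  ∃ c : Sym2 V → Fin D, ∀ u v w, G.Adj u v → G.Adj u w → c s(u, v) = c s(u, w) → v = w

noncomputable def Dk (k : ℕ) (G : SimpleGraph V) : Finset V := univ.filter (dg G · = k)

def TK (k j : ℕ) (G : SimpleGraph V) : Prop :=
  ECd (k + 1) G ∧ (∀ v, dg G v = k ∨ dg G v = k + 1) ∧ (Dk k G).card = 2 * j

lemma TK_succ (k j : ℕ) : cnt (TK (V := V) k j) * ((k + 1) * Fintype.card V - (4 * k + 2) * j) ≤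
    cnt (TK (V := V) k (j + 1)) * ((2 * j + 2) * (2 * j + 1)) := by
  refine (pair_lo _ (fun G (e : V × V) => G.Adj e.1 e.2 ∧ dg G e.1 = k + 1 ∧ dg G e.2 = k + 1) _
    (fun G hG => ?_)).trans (le_trans ?_ (pair_up _
      (fun G (e : V × V) => e.1 ∈ Dk k G ∧ e.2 ∈ (Dk k G).erase e.1) _ (fun G hG => ?_)))
  · have c2 : cnt (fun v => dg G v = k) = 2 * j := by
      rw [cnt_eq_card]; exact_mod_cast hG.2.2
    have c3 := cnt_or (p := fun _ : V => True) (fun v _ => hG.2.1 v)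
    rw [cnt_true, c2] at c3
    have a1 := pair_lo (fun v => dg G v = k + 1) G.Adj (k + 1) (fun v h => by rw [cnt_adj, h]; simp)
    have a2 := pair_up (fun v => dg G v = k) G.Adj k (fun v h => by rw [cnt_adj, h])
    have a3 : cnt (fun z : V × V => dg G z.2 = k ∧ G.Adj z.2 z.1) ≤ _ :=
      (cnt_inj Prod.swap (fun _ h => h) (fun _ _ _ _ e => Prod.swap_injective e)).trans a2
    have a4 := a1.trans ((cnt_or
      (r := fun e : V × V => G.Adj e.1 e.2 ∧ dg G e.1 = k + 1 ∧ dg G e.2 = k + 1)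
      (fun z h => (hG.2.1 z.2).symm.imp (fun x => ⟨h.2, h.1, x⟩) (fun x => ⟨x, h.2.symm⟩))).trans
      (add_le_add le_rfl a3))
    rw [c2] at a4
    have := mul_le_mul_of_nonneg_right c3 (by positivity : (0 : ℝ) ≤ k + 1)
    linarith
  · refine cnt_inj (fun z => (del z.1 z.2.1 z.2.2, z.2)) ?_ ?_
    · rintro ⟨G, u, w⟩ ⟨⟨⟨c, hc⟩, h2, h3⟩, a, a1, a2⟩
      have hn := a.ne
      have t := dg_del a
      have e : Dk k (del G u w) = insert u (insert w (Dk k G)) := by
        ext x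
        have := t x; have := h2 x
        simp only [Dk, mem_filter, mem_univ, true_and, mem_insert] at *
        grind
      dsimp only at *
      refine ⟨⟨⟨c, fun x y z p q => hc x y z p.1 q.1⟩, fun x => ?_, ?_⟩, by simp [e], by
        simp [e, hn.symm]⟩
      · have := t x; have := h2 x; grind
      · rw [e, card_insert_of_notMem (by simp [Dk, hn, a1]), card_insert_of_notMem (by simp [Dk, a2]),
          h3]; ring
    · rintro ⟨G, u, w⟩ ⟨G', u', w'⟩ ⟨-, a, -⟩ ⟨-, a', -⟩ e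
      simp only [Prod.mk.injEq] at e ⊢
      obtain ⟨e, rfl, rfl⟩ := e
      exact ⟨del_inj a a' e, rfl, rfl⟩
  · refine (pair_up (· ∈ Dk k G) (fun u w => w ∈ (Dk k G).erase u) (2 * j + 1)
      (fun u hu => ?_)).trans ?_
    · rw [cnt_eq_card, filter_mem_eq_inter, univ_inter, card_erase_of_mem hu, hG.2.2]
      exact_mod_cast (by omega)
    · rw [cnt_eq_card, filter_mem_eq_inter, univ_inter, hG.2.2]; push_cast; apply le_of_eq; ring

def Rg (D : ℕ) (G : SimpleGraph V) : Prop := ECd D G ∧ ∀ v, dg G v = D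

lemma T_low' {k m : ℕ} (hm : (8 * k + 4) ^ 2 ≤ m) :
    cnt (Rg (V := Fin (2 * m)) (k + 1)) * (exp (√(2 * m * (k + 1 : ℕ)) - (8 * k + 4)) / 4) ≤
      cnt (fun G : SimpleGraph (Fin (2 * m)) => (∀ v, dg G v ≤ k + 1) ∧ ECd (k + 1) G) := by
  have m0 : (8 * k + 4 : ℝ) ^ 2 ≤ m := by exact_mod_cast hm
  have k0 : (0 : ℝ) ≤ k := by positivity
  have m1 : (0 : ℝ) ≤ m := by positivity
  have R0 : 8 * k + 4 ≤ √(2 * m * (k + 1 : ℕ) : ℝ) :=
    Real.le_sqrt_of_sq_le (by push_cast; nlinarith)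
  have R2 : √(2 * m * (k + 1 : ℕ) : ℝ) ^ 2 = 2 * m * (k + 1 : ℕ) := Real.sq_sqrt (by positivity)
  generalize √(2 * m * (k + 1 : ℕ) : ℝ) = R at *
  obtain ⟨J, J1, J2⟩ : ∃ J : ℕ, R + 1 ≤ J ∧ J ≤ R + 2 :=
    ⟨_, Nat.le_ceil _, by linarith [Nat.ceil_lt_add_one (by linarith : 0 ≤ R + 1)]⟩
  have J3 : (4 * k + 2) * (J : ℝ) ≤ (8 * k + 4) * R := by nlinarith
  obtain ⟨y, y0, y2⟩ : ∃ s : ℝ, 0 ≤ s ∧ s ^ 2 = R ^ 2 - (4 * k + 2) * J :=
    ⟨_, Real.sqrt_nonneg _, Real.sq_sqrt (by nlinarith)⟩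
  have y1 : y ≤ R := by
    have : 0 ≤ (4 * k + 2) * (J : ℝ) := by positivity
    exact le_of_pow_le_pow_left₀ two_ne_zero (by linarith) (by linarith)
  have y3 : R - (8 * k + 4) ≤ y := le_of_pow_le_pow_left₀ two_ne_zero y0 (by nlinarith)
  have t : ∀ j ≤ J, cnt (Rg (V := Fin (2 * m)) (k + 1)) * (y ^ (2 * j) / (2 * j).factorial) ≤
      cnt (TK (V := Fin (2 * m)) k j) := by
    intro j
    induction j with
    | zero => simpa using cnt_mono (fun G h => ⟨h.1, fun v => Or.inr (h.2 v), by simp [Dk, h.2]⟩)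
    | succ j ih =>
      intro hj
      have a := TK_succ (V := Fin (2 * m)) k j
      have b : (j : ℝ) ≤ J := by exact_mod_cast (by omega)
      have c := mul_le_mul (ih (by omega)) (by simp at R2 ⊢; nlinarith : y ^ 2 ≤ _) (by positivity)
        (cnt_nonneg _) |>.trans a
      rw [← div_le_iff₀ (by positivity)] at c
      refine le_trans (le_of_eq ?_) c
      rw [show 2 * (j + 1) = 2 * j + 1 + 1 by ring, Nat.factorial_succ, Nat.factorial_succ]
      push_cast; field_simp; ring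
  refine le_trans ?_ (cnt_fib (range J) (fun G => (Dk k G).card / 2))
  refine (mul_le_mul_of_nonneg_left ((div_le_div_of_nonneg_right (exp_le_exp.2 y3)
    (by norm_num)).trans (coshL y0 (J := J) (by linarith))) (cnt_nonneg _)).trans ?_
  rw [mul_sum]
  refine sum_le_sum (fun j hj => (t j (mem_range.1 hj).le).trans (cnt_mono (fun G h =>
    ⟨⟨fun v => by have := h.2.1 v; omega, h.1⟩, by have := h.2.2; omega⟩)))

lemma sw' (F : Finset (V × V)) (D : ℝ) (hd : ∀ u, cnt (fun x => (u, x) ∈ F ∨ (x, u) ∈ F) ≤ D)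
    (u v : V) : cnt (fun σ => av F σ ∧ σ u = v) * (Fintype.card V - (2 + 2 * D)) ≤ cnt (av F) := by
  refine (pair_lo _ (fun σ x => x ≠ u ∧ x ≠ v ∧ ¬ ((u, x) ∈ F ∨ (x, u) ∈ F) ∧
    ¬ ((v, σ x) ∈ F ∨ (σ x, v) ∈ F)) _ (fun σ _ => ?_)).trans
    (cnt_inj (fun z => swap v z.2 * z.1 * swap v z.2) ?_ ?_)
  · have a : cnt (fun x => (v, σ x) ∈ F ∨ (σ x, v) ∈ F) ≤ D :=
      (cnt_inj (r := fun x => (v, x) ∈ F ∨ (x, v) ∈ F) (fun x => σ x) (fun _ h => h)
        (fun _ _ _ _ e => σ.injective e)).trans (hd v)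
    have b := (cnt_or (p := fun _ : V => True) (r := fun x => x ≠ u ∧ x ≠ v ∧
      ¬ ((u, x) ∈ F ∨ (x, u) ∈ F) ∧ ¬ ((v, σ x) ∈ F ∨ (σ x, v) ∈ F)) (fun x _ => by tauto)).trans
      (add_le_add le_rfl ((cnt_or (fun _ h => h)).trans (add_le_add (cnt_one u).le
      ((cnt_or (fun _ h => h)).trans (add_le_add (cnt_one v).le ((cnt_or (fun _ h => h)).trans
      (add_le_add (hd u) a)))))))
    rw [cnt_true] at b
    linarith
  · rintro ⟨σ, x⟩ ⟨⟨⟨⟨p1, p2⟩, p3⟩, e⟩, x1, x2, x3, x4⟩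
    dsimp only at *
    refine ⟨⟨fun z => by simp [p1], fun z h => p2 (swap v x z) ?_⟩, fun z => ?_⟩
    · simpa using congrArg (swap v x) h
    · have := p1 z; have := p1 u; have := p1 x; have := p2 x; have := p2 u; have := p3 z
      simp only [Perm.mul_apply, swap_apply_def]
      grind
  · rintro ⟨σ, x⟩ ⟨σ', x'⟩ ⟨⟨⟨⟨-, p2⟩, -⟩, e⟩, x1, -⟩ ⟨⟨-, e'⟩, x1', -⟩ h
    dsimp only at *
    have hu : u ≠ v := fun h => p2 u (e.trans h.symm)
    have : x = x' := by
      have := congrArg (fun τ : Perm V => τ u) h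
      simpa [swap_apply_of_ne_of_ne hu x1.symm, swap_apply_of_ne_of_ne hu x1'.symm, e, e'] using this
    subst this
    rw [mul_left_cancel (mul_right_cancel h)]

lemma avoid' (D : ℝ) (hD : 0 ≤ D) (hn : 4 + 4 * D ≤ Fintype.card V) (F : Finset (V × V)) :
    (∀ u, cnt (fun x => (u, x) ∈ F ∨ (x, u) ∈ F) ≤ D) →
    cnt (PMf (V := V)) * exp (-4 / Fintype.card V) ^ F.card ≤ cnt (av F) := by
  induction F using Finset.induction_on with
  | empty => intro _; simpa using cnt_mono (fun σ h => ⟨h, by simp⟩)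
  | insert e F he ih =>
    intro hd
    have hd' : ∀ u, cnt (fun x => (u, x) ∈ F ∨ (x, u) ∈ F) ≤ D := fun u =>
      (cnt_mono (fun x h => h.imp mem_insert_of_mem mem_insert_of_mem)).trans (hd u)
    have a := sw' F D hd' e.1 e.2
    have b := cnt_or (p := av F) (r := av (insert e F)) (s := fun σ => av F σ ∧ σ e.1 = e.2)
      (fun σ h => by
        by_cases c : σ e.1 = e.2
        · exact Or.inr ⟨h, c⟩
        · refine Or.inl ⟨h.1, fun x hx => (mem_insert.1 hx).elim (fun y => c ?_) (h.2 x)⟩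
          rw [← y])
    rw [card_insert_of_notMem he, pow_succ, ← mul_assoc]
    refine (mul_le_mul_of_nonneg_right (ih hd') (exp_pos _).le).trans ?_
    generalize (Fintype.card V : ℝ) = n at *
    have c : exp (-4 / n) ≤ 1 - 2 / n := by
      have x1 : 2 / n ≤ 1 / 2 := by rw [div_le_div_iff₀ (by linarith) (by norm_num)]; linarith
      have x0 : 0 ≤ 2 / n := div_nonneg (by norm_num) (by linarith)
      rw [show -4 / n = -(2 * (2 / n)) by ring, exp_neg, inv_le_comm₀ (exp_pos _) (by linarith)]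
      refine le_trans ?_ (add_one_le_exp _)
      rw [inv_le_iff_one_le_mul₀ (by linarith)]
      nlinarith
    have a' := (mul_le_mul_of_nonneg_left (by linarith : n / 2 ≤ _) (cnt_nonneg _)).trans a
    rw [← le_div_iff₀ (by linarith), div_div_eq_mul_div, mul_div_assoc] at a'
    refine (mul_le_mul_of_nonneg_left c (cnt_nonneg _)).trans ?_
    linarith

lemma avH {D : ℕ} (hn : 4 + 4 * D ≤ Fintype.card V) {H : SimpleGraph V} (h : ∀ v, dg H v = D) :
    cnt (PMf (V := V)) * exp (-4 * D) ≤ cnt (fun σ => PMf σ ∧ ∀ x, ¬ H.Adj x (σ x)) := by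
  classical
  have n0 : (4 : ℝ) + 4 * D ≤ Fintype.card V := by exact_mod_cast hn
  have D0 : (0 : ℝ) ≤ D := by positivity
  have a := avoid' D D0 n0 (univ.filter (fun e : V × V => H.Adj e.1 e.2)) (fun u => by
    rw [← h u, ← cnt_adj]; exact cnt_mono (fun x hx => by simpa [H.adj_comm x] using hx))
  refine le_trans (mul_le_mul_of_nonneg_left ?_ (cnt_nonneg _)) (a.trans (cnt_mono
    (fun σ h => ⟨h.1, fun x => by simpa using h.2 x⟩)))
  have b := pair_up (fun _ : V => True) H.Adj D (fun v _ => by rw [cnt_adj, h])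
  rw [cnt_true, cnt_eq_card] at b
  simp only [true_and] at b
  rw [← exp_nat_mul]
  refine exp_le_exp.2 ?_
  rw [← mul_div_assoc, le_div_iff₀ (by linarith)]
  linarith

def mt (σ : Perm V) : SimpleGraph V := SimpleGraph.fromRel (fun x y => σ x = y)

def Pr (D : ℕ) (z : SimpleGraph V × Perm V) : Prop := Rg D z.1 ∧ PMf z.2 ∧ ∀ x, ¬ z.1.Adj x (z.2 x)

lemma un_adj {H : SimpleGraph V} {σ : Perm V} (h : PMf σ) (x y : V) :
    (H ⊔ mt σ).Adj x y ↔ H.Adj x y ∨ σ x = y := by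
  rw [SimpleGraph.sup_adj, mt, SimpleGraph.fromRel_adj]
  have := h.1 y; have := h.2 x
  grind

lemma un_Rg {D : ℕ} {z : SimpleGraph V × Perm V} (h : Pr D z) : Rg (D + 1) (z.1 ⊔ mt z.2) := by
  classical
  obtain ⟨H, σ⟩ := z
  obtain ⟨⟨⟨c, hc⟩, h1⟩, h2, h3⟩ := h
  dsimp only at *
  refine ⟨⟨fun e => if e ∈ H.edgeSet then (c e).castSucc else Fin.last D, fun u v w a b e => ?_⟩,
    fun v => ?_⟩
  · rw [un_adj h2] at a b
    simp only [SimpleGraph.mem_edgeSet] at e
    split_ifs at e with x y y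
    · exact hc u v w x y (Fin.castSucc_injective _ e)
    · exact absurd e (Fin.castSucc_lt_last _).ne
    · exact absurd e (Fin.castSucc_lt_last _).ne'
    · exact (a.resolve_left x).symm.trans (b.resolve_left y)
  · rw [← h1 v]
    unfold dg
    rw [← card_insert_of_notMem (a := σ v) (by simpa using h3 v)]
    congr 1; ext y; simp only [mem_filter, mem_univ, true_and, mem_insert, un_adj h2]; grind

def dd (k : ℕ) (b : Bool) : Fin 4 → ℕ := if b then ![0, 0, 1, k + 1] else ![1, 1, 0, k]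

def mm (σ : Perm V) (p : V → Prop) : SimpleGraph V := SimpleGraph.fromRel (fun x y => σ x = y ∧ p x)

lemma mm_adj {σ : Perm V} (h : PMf σ) {p : V → Prop} (hp : ∀ x, p x → p (σ x)) (x y : V) :
    (mm σ p).Adj x y ↔ σ x = y ∧ p x := by
  rw [mm, SimpleGraph.fromRel_adj]
  have := h.1 y; have := h.2 x; have := hp y
  grind

lemma mm_dg {σ : Perm V} (h : PMf σ) {p : V → Prop} [DecidablePred p] (hp : ∀ x, p x → p (σ x))
    (x : V) : dg (mm σ p) x = if p x then 1 else 0 := by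
  unfold dg
  split_ifs with a
  · refine card_eq_one.2 ⟨σ x, ?_⟩
    ext y; simp only [mem_filter, mem_univ, true_and, mem_singleton, mm_adj h hp]; grind
  · refine card_eq_zero.2 ?_
    ext y; simp only [mem_filter, mem_univ, true_and, mm_adj h hp]; grind

lemma B4 (k N : ℕ) (hN : Fintype.card V * (k + 1) + 2 ≤ N) :
    cnt (fun z : (SimpleGraph V × Perm V) × (SimpleGraph V × Perm V) =>
      (Pr (k + 1) z.1 ∧ Pr (k + 1) z.2) ∧ z.1.1 ⊔ mt z.1.2 = z.2.1 ⊔ mt z.2.2) ≤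
    (2 * exp 2) ^ 4 * ∑ Z : Fin 4 → Fin N,
      t4 k (fun p => (Z p : ℕ)) ^ Fintype.card V * ∏ p, gw (Z p) := by
  classical
  refine (cnt_sum (univ : Finset (V → Bool))
    (fun κ (z : (SimpleGraph V × Perm V) × (SimpleGraph V × Perm V)) =>
      ((Pr (k + 1) z.1 ∧ Pr (k + 1) z.2) ∧
    z.1.1 ⊔ mt z.1.2 = z.2.1 ⊔ mt z.2.2) ∧ ∀ x, κ x = decide (z.1.2 x = z.2.2 x))
    (fun z h => ⟨fun x => decide (z.1.2 x = z.2.2 x), mem_univ _, h, fun _ => rfl⟩)).trans ((sum_le_sum (g := fun κ =>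
      (2 * exp 2) ^ 4 * ∑ Z : Fin 4 → Fin N, (∏ v, ∏ p, ((Z p : ℕ) : ℝ) ^ dd k (κ v) p /
        (dd k (κ v) p).factorial) * ∏ p, gw (Z p)) (fun κ _ => ?_)).trans (le_of_eq ?_))
  · have pre : ∀ (H H' : SimpleGraph V) (σ σ' : Perm V), Pr (k + 1) (H, σ) → Pr (k + 1) (H', σ') →
        H ⊔ mt σ = H' ⊔ mt σ' → (∀ x y, H.Adj x y ∨ σ x = y ↔ H'.Adj x y ∨ σ' x = y) ∧
        (∀ x, σ x ≠ σ' x → σ (σ x) ≠ σ' (σ x)) ∧ (∀ x, σ x ≠ σ' x → σ (σ' x) ≠ σ' (σ' x)) ∧
        (∀ x, σ x = σ' x → σ (σ x) = σ' (σ x)) := by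
      intro H H' σ σ' h h' e
      refine ⟨fun x y => by rw [← un_adj h.2.1, e, un_adj h'.2.1], fun x => ?_, fun x => ?_,
        fun x => ?_⟩
      all_goals
        have := h.2.1.1 x; have := h'.2.1.1 x; have := h.2.1.1 (σ' x); have := h'.2.1.1 (σ x)
        grind
    refine (cnt_inj (r := fun M : Fin 4 → SimpleGraph V => ∀ p, ∀ v, dg (M p) v = dd k (κ v) p)
      (fun z => ![mm z.1.2 (fun x => z.1.2 x ≠ z.2.2 x), mm z.2.2 (fun x => z.1.2 x ≠ z.2.2 x),
        mm z.1.2 (fun x => z.1.2 x = z.2.2 x), z.1.1 ⊓ z.2.1]) ?_ ?_).trans ?_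
    · rintro ⟨⟨H, σ⟩, H', σ'⟩ ⟨⟨⟨h, h'⟩, e⟩, c⟩ p v
      obtain ⟨e1, e2, e3, e4⟩ := pre H H' σ σ' h h' e
      dsimp only at *
      rw [c v]
      fin_cases p
      · simp only [Fin.zero_eta, Matrix.cons_val_zero, mm_dg h.2.1 e2, dd]
        by_cases a : σ v = σ' v <;> simp [a]
      · simp only [Fin.mk_one, Matrix.cons_val_one, Matrix.cons_val_zero, mm_dg h'.2.1 e3, dd]
        by_cases a : σ v = σ' v <;> simp [a]
      · simp only [Fin.reduceFinMk, Matrix.cons_val, mm_dg h.2.1 e4, dd]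
        by_cases a : σ v = σ' v <;> simp [a]
      · have b1 := h.1.2 v
        have b2 := h.2.2 v
        have b3 := h'.2.2 v
        have b4 := e1 v
        simp only [Fin.reduceFinMk, Matrix.cons_val, dd]
        unfold dg at *
        by_cases a : σ v = σ' v
        · simp only [a, decide_true, if_true, Matrix.cons_val]
          rw [← b1]; congr 1; ext y
          simp only [mem_filter, mem_univ, true_and, SimpleGraph.inf_adj]; grind
        · simp only [a, decide_false, Bool.false_eq_true, if_false, Matrix.cons_val]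
          refine Nat.succ_injective (Eq.trans ?_ b1)
          rw [Nat.succ_eq_add_one, ← card_insert_of_notMem (a := σ' v) (by simpa using fun _ => b3)]
          congr 1; ext y
          simp only [mem_filter, mem_univ, true_and, SimpleGraph.inf_adj, mem_insert]; grind
    · rintro ⟨⟨H, σ⟩, H', σ'⟩ ⟨⟨K, τ⟩, K', τ'⟩ ⟨⟨⟨h, h'⟩, e⟩, -⟩ ⟨⟨⟨g, g'⟩, f⟩, -⟩ c
      obtain ⟨e1, e2, e3, e4⟩ := pre H H' σ σ' h h' e
      obtain ⟨f1, f2, f3, f4⟩ := pre K K' τ τ' g g' f
      have c0 := fun x y => congrArg (fun M : SimpleGraph V => M.Adj x y) (congrFun c 0)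
      have c1 := fun x y => congrArg (fun M : SimpleGraph V => M.Adj x y) (congrFun c 1)
      have c2 := fun x y => congrArg (fun M : SimpleGraph V => M.Adj x y) (congrFun c 2)
      have c3 := fun x y => congrArg (fun M : SimpleGraph V => M.Adj x y) (congrFun c 3)
      simp only [Matrix.cons_val_zero, Matrix.cons_val_one, Matrix.cons_val, mm_adj h.2.1 e2,
        mm_adj h'.2.1 e3, mm_adj h.2.1 e4, mm_adj g.2.1 f2, mm_adj g'.2.1 f3, mm_adj g.2.1 f4,
        SimpleGraph.inf_adj] at c0 c1 c2 c3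
      have s1 : ∀ x, σ x = τ x ∧ σ' x = τ' x := fun x => by
        have := c0 x (σ x); have := c1 x (σ' x); have := c2 x (σ x); grind
      have s2 : ∀ x y, (H.Adj x y ↔ K.Adj x y) ∧ (H'.Adj x y ↔ K'.Adj x y) := fun x y => by
        have := c3 x y; have := s1 x; have := e1 x y; have := f1 x y
        have := h.2.2 x; have := h'.2.2 x; have := g.2.2 x; have := g'.2.2 x
        grind
      exact Prod.ext (Prod.ext (SimpleGraph.ext (funext₂ fun x y => propext (s2 x y).1))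
        (Perm.ext fun x => (s1 x).1)) (Prod.ext (SimpleGraph.ext (funext₂ fun x y =>
          propext (s2 x y).2)) (Perm.ext fun x => (s1 x).2))
    · rw [cnt_prod (fun (p : Fin 4) (G : SimpleGraph V) => ∀ v, dg G v = dd k (κ v) p)]
      refine (prod_le_prod (fun _ _ => cnt_nonneg _) (g := fun p => 2 * exp 2 * ∑ j : Fin N,
        (∏ v, ((j : ℕ) : ℝ) ^ dd k (κ v) p / (dd k (κ v) p).factorial) * gw j) (fun p _ => ?_)).trans
        (le_of_eq ?_)
      · have h1 := (gd _ (fun v => dd k (κ v) p) rfl).trans (pm_le _ N (by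
          have := sum_le_card_nsmul univ (fun v => dd k (κ v) p) (k + 1)
            (fun v _ => by cases κ v <;> fin_cases p <;> simp [dd])
          simp only [card_univ, smul_eq_mul] at this; omega))
        rw [← le_div_iff₀ (by positivity), mul_div_assoc, sum_div, ← Fin.sum_univ_eq_sum_range
          (fun j => (j : ℝ) ^ _ * gw j / _)] at h1
        refine h1.trans (le_of_eq ?_)
        congr 1
        refine sum_congr rfl (fun j _ => ?_)
        rw [prod_div_distrib, prod_pow_eq_pow_sum]; ring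
      · rw [prod_mul_distrib, prod_univ_sum, Fintype.piFinset_univ]
        congr 1
        · simp
        · exact sum_congr rfl (fun Z _ => by rw [prod_mul_distrib, Finset.prod_comm])
  · rw [← mul_sum, sum_comm]
    congr 1
    refine sum_congr rfl (fun Z _ => ?_)
    have := prod_univ_sum (fun _ : V => (univ : Finset Bool))
      (fun _ b => ∏ p, ((Z p : ℕ) : ℝ) ^ dd k b p / (dd k b p).factorial)
    rw [Fintype.piFinset_univ] at this
    rw [← sum_mul, ← this, prod_const, card_univ]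
    congr 2
    simp [dd, t4, Fin.prod_univ_four, mul_div_assoc]

lemma base : ∃ c : ℝ, 0 < c ∧ ∀ᶠ m in atTop, c * Lb 3 m ≤ cnt (Rg (V := Fin (2 * m)) 3) := by
  obtain ⟨C1, h1⟩ := perB
  set K := (2 * exp 2) ^ 9 * (|C1| + 1) with hK
  have K0 : 0 < K := by positivity
  refine ⟨exp (-16) ^ 2 / K, by positivity, ?_⟩
  filter_upwards [eventually_ge_atTop 300] with m hm
  have m0 : (0 : ℝ) < m := by exact_mod_cast (by omega)
  have L0 : 0 < La m := by unfold La; positivity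
  have a1 : La m * exp (-16) ≤ cnt (Tr (V := Fin (2 * m))) := by
    refine le_trans (mul_le_mul_of_nonneg_right ?_ (exp_pos _).le) (Tr_low (by simp; omega))
    rw [La, pow_mul']
    exact pow_le_pow_left₀ (by positivity) ((pm_bd m).1.trans (pm_low (by omega))) 3
  have a0 := B_up (V := Fin (2 * m)) (2 * m + 2) (by simp)
  rw [Fintype.card_fin] at a0
  have a2 := a0.trans (mul_le_mul_of_nonneg_left ((h1 m _ (by omega)).trans
    (mul_le_mul_of_nonneg_right ((le_abs_self _).trans (le_add_of_nonneg_right zero_le_one))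
      (by positivity))) (by positivity))
  have a3 := (pow_le_pow_left₀ (by positivity) a1 2).trans ((cnt_cs Tr (TT 0) gr
    (fun _ h => gr_TT h)).trans (mul_le_mul_of_nonneg_left a2 (cnt_nonneg _)))
  rw [← mul_assoc ((2 * exp 2) ^ 9), ← hK, ← div_le_iff₀ (by positivity)] at a3
  refine le_trans (le_of_eq ?_) (a3.trans (cnt_mono (fun G h => ⟨h.1, fun v =>
    (h.2.1 v).resolve_left (fun x => ?_)⟩)))
  · have : Lb 3 m = (3 / 4) ^ m * La m := by
      rw [Lb, La, pow_mul, pow_mul, pow_mul, ← div_pow, ← mul_pow]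
      congr 1; norm_num [Nat.factorial]; ring
    rw [this, div_pow, div_pow]; field_simp
  · have := card_eq_zero.1 h.2.2
    simp only [D2, filter_eq_empty_iff] at this
    exact this (mem_univ v) x

lemma step (k : ℕ) (hk : 1 ≤ k)
    (h : ∃ c : ℝ, 0 < c ∧ ∀ᶠ m in atTop, c * Lb (k + 1) m ≤ cnt (Rg (V := Fin (2 * m)) (k + 1))) :
    ∃ c : ℝ, 0 < c ∧ ∀ᶠ m in atTop, c * Lb (k + 2) m ≤ cnt (Rg (V := Fin (2 * m)) (k + 2)) := by
  obtain ⟨c, c0, h⟩ := h
  obtain ⟨C1, h1⟩ := sum4 k hk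
  set K := (2 * exp 2) ^ 4 * (|C1| + 1) with hK
  have K0 : 0 < K := by positivity
  refine ⟨(c * exp (-4 * (k + 1 : ℕ))) ^ 2 / K, by positivity, ?_⟩
  filter_upwards [h, eventually_ge_atTop (4 + 2 * k)] with m hm m1
  have m0 : (0 : ℝ) < m := by exact_mod_cast (by omega)
  have a1 : c * Lb (k + 1) m * ((2 * m / exp 1) ^ m * exp (-4 * (k + 1 : ℕ))) ≤
      cnt (Pr (V := Fin (2 * m)) (k + 1)) :=
    (mul_le_mul hm (mul_le_mul_of_nonneg_right ((pm_bd m).1.trans (pm_low (m := m) (by omega)))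
      (exp_pos _).le) (by positivity) (cnt_nonneg _)).trans
      (pair_lo (Rg (k + 1)) (fun H σ => PMf σ ∧ ∀ x, ¬ H.Adj x (σ x)) _
        (fun H hH => avH (by simp; omega) hH.2))
  have a0 := B4 (V := Fin (2 * m)) k _ le_rfl
  rw [Fintype.card_fin] at a0
  have a2 := a0.trans (mul_le_mul_of_nonneg_left ((h1 m _ (by omega)).trans
    (mul_le_mul_of_nonneg_right ((le_abs_self _).trans (le_add_of_nonneg_right zero_le_one))
      (by positivity))) (by positivity))
  have a3 := (pow_le_pow_left₀ (by unfold Lb; positivity) a1 2).trans ((cnt_cs (Pr (k + 1))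
    (Rg (k + 2)) (fun z => z.1 ⊔ mt z.2) (fun _ h => un_Rg h)).trans
    (mul_le_mul_of_nonneg_left a2 (cnt_nonneg _)))
  rw [← mul_assoc ((2 * exp 2) ^ 4), ← hK, ← div_le_iff₀ (by positivity)] at a3
  refine le_trans (le_of_eq ?_) a3
  have e : Lb (k + 2) m * ((2 * m / exp 1) ^ ((k + 2) * m) * ((k + 1) ^ (2 * k + 2) / (k + 2) ^ k /
      ((k + 1).factorial : ℝ) ^ 2) ^ m) = (Lb (k + 1) m * (2 * m / exp 1) ^ m) ^ 2 := by
    simp only [Lb, pow_mul _ _ m, ← div_pow, ← mul_pow]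
    rw [← pow_mul, pow_mul']
    congr 1
    rw [Nat.factorial_succ (k + 1), mul_div_right_comm (2 * (m : ℝ)), mul_div_right_comm (2 * (m : ℝ))]
    generalize 2 * m / exp 1 = t
    simp only [mul_pow, div_pow]
    push_cast; field_simp; ring
  rw [eq_div_iff (by positivity)]
  calc _ = (c * exp (-4 * (k + 1 : ℕ))) ^ 2 * (Lb (k + 2) m * ((2 * m / exp 1) ^ ((k + 2) * m) *
      ((k + 1) ^ (2 * k + 2) / (k + 2) ^ k / ((k + 1).factorial : ℝ) ^ 2) ^ m)) := by field_simp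
    _ = _ := by rw [e]; ring

theorem main' (D : ℕ) (hD : 3 ≤ D) : ∃ c : ℝ, 0 < c ∧ ∀ᶠ m in atTop,
    c * cnt (fun G : SimpleGraph (Fin (2 * m)) => ∀ v, dg G v ≤ D) ≤
      cnt (fun G : SimpleGraph (Fin (2 * m)) => (∀ v, dg G v ≤ D) ∧ ECd D G) := by
  obtain ⟨c, c0, h⟩ : ∃ c : ℝ, 0 < c ∧ ∀ᶠ m in atTop,
      c * Lb D m ≤ cnt (Rg (V := Fin (2 * m)) D) := by
    induction D, hD using Nat.le_induction with
    | base => exact base
    | succ D hD ih =>
      obtain ⟨k, rfl⟩ : ∃ k, D = k + 1 := ⟨D - 1, by omega⟩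
      exact step k (by omega) ih
  obtain ⟨k, rfl⟩ : ∃ k, D = k + 2 := ⟨D - 2, by omega⟩
  obtain ⟨C2, h2⟩ := G_up' k
  refine ⟨c * (exp (-(8 * (k + 1 : ℕ) + 4)) / 4) / (|C2| + 1), by positivity, ?_⟩
  filter_upwards [h, eventually_ge_atTop ((8 * (k + 1) + 4) ^ 2), eventually_ge_atTop 1]
    with m a4 hm m1
  refine le_trans ?_ ((mul_le_mul_of_nonneg_right a4 (by positivity)).trans (T_low' hm))
  refine (mul_le_mul_of_nonneg_left ((h2 m m1).trans (mul_le_mul_of_nonneg_right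
    ((le_abs_self _).trans (le_add_of_nonneg_right zero_le_one)) (by unfold Lb; positivity)))
    (by positivity)).trans (le_of_eq ?_)
  rw [sub_eq_add_neg, exp_add]; field_simp

end Pool.Agent.H.MP_c4b7b1_co
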